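import Pool.Agent.Y47.BU.Cnt
import Pool.Agent.Y47.BU.Ram

/-! Many tuples and few exceptional triples: blow-ups without exceptional triples. -/

set_option autoImplicit false
set_option linter.unusedVariables false
set_option linter.unusedSectionVars false

open Finset
open scoped Classical

namespace Pool.Agent.Run7.h551.TX
open Pool.Agent.Y47.BU (Bl bl_card ramsey)

/-- functions whose restriction is in a given set -/
theorem pull' {V A B : Type} [Fintype V] [Fintype A] [Fintype B] (e : A → B)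
    (he : Function.Injective e) (s : Finset (B → V)) (t : Finset (A → V))
    (h : ∀ w ∈ s, w ∘ e ∈ t) :
    s.card ≤ t.card * Fintype.card V ^ (Fintype.card B - Fintype.card A) := by
  have h1 : s.card ≤ (t ×ˢ (univ : Finset ({j : B // j ∉ Set.range e} → V))).card := by
    refine card_le_card_of_injOn (fun w => (w ∘ e, fun j => w j.1)) ?_ ?_
    · intro w hw
      exact mem_coe.mpr (mem_product.mpr ⟨h w hw, mem_univ _⟩)
    · intro w _ w' _ h
      funext j
      by_cases hj : j ∈ Set.range e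
      · obtain ⟨i, rfl⟩ := hj
        exact congrFun (Prod.mk.inj h).1 i
      · exact congrFun (Prod.mk.inj h).2 ⟨j, hj⟩
  refine h1.trans (le_of_eq ?_)
  rw [card_product, card_univ, Fintype.card_fun, Fintype.card_subtype_compl]
  congr 2
  rw [← Set.card_range_of_injective he]

/-- **Blow-ups without exceptional triples.** -/
theorem blow (k T : ℕ) (hT : 0 < T) {δ : ℝ} (hδ : 0 < δ) : ∃ ε : ℝ, 0 < ε ∧
    ∀ (V : Type) [Fintype V], 0 < Fintype.card V → ∀ (S : Finset (Fin k → V)),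
      δ * (Fintype.card V : ℝ) ^ k ≤ S.card → ∀ B : V → V → V → Prop,
      (((univ : Finset (Fin 3 → V)).filter fun x => B (x 0) (x 1) (x 2)).card : ℝ) ≤
        ε * (Fintype.card V : ℝ) ^ 3 →
      ∃ y : Fin k → Fin T → V, (∀ f : Fin k → Fin T, (fun i => y i (f i)) ∈ S) ∧
        ∀ a b c : Fin k × Fin T, a ≠ b → b ≠ c → a ≠ c →
          ¬ B (y a.1 a.2) (y b.1 b.2) (y c.1 c.2) := by
  have hQ : (0 : ℝ) < 2 * (((k * T : ℕ) : ℝ) ^ 3 + 1) := by positivity
  refine ⟨δ ^ (T ^ k) / (2 * (((k * T : ℕ) : ℝ) ^ 3 + 1)), by positivity, ?_⟩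
  intro V _ hV S hS B hB
  by_contra hcon
  push Not at hcon
  have hN : (0 : ℝ) < (Fintype.card V : ℝ) := by exact_mod_cast hV
  have h1 := bl_card (V := V) rfl hN hT k S
  have h2 : δ ≤ (S.card : ℝ) / (Fintype.card V : ℝ) ^ k := by
    rw [le_div_iff₀ (by positivity)]; exact hS
  have h3 : δ ^ (T ^ k) ≤ ((S.card : ℝ) / (Fintype.card V : ℝ) ^ k) ^ (T ^ k) :=
    pow_le_pow_left₀ hδ.le h2 _
  have h4 : (Fintype.card V : ℝ) ^ (k * T) * δ ^ (T ^ k) ≤ ((Bl k T S).card : ℝ) :=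
    (mul_le_mul_of_nonneg_left h3 (by positivity)).trans h1
  have hpos : (0 : ℝ) < ((Bl k T S).card : ℝ) := lt_of_lt_of_le (by positivity) h4
  obtain ⟨y0, hy0⟩ : (Bl k T S).Nonempty := by
    rw [← card_pos]; exact_mod_cast hpos
  have key : ∀ y ∈ Bl k T S, ∃ a b c : Fin k × Fin T, a ≠ b ∧ b ≠ c ∧ a ≠ c ∧
      B (y a.1 a.2) (y b.1 b.2) (y c.1 c.2) := fun y hy => hcon y (mem_filter.mp hy).2
  have h3T : 3 ≤ k * T := by
    obtain ⟨a, b, c, n1, n2, n3, -⟩ := key y0 hy0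
    have : ({a, b, c} : Finset (Fin k × Fin T)).card = 3 :=
      card_eq_three.2 ⟨a, b, c, n1, n3, n2, rfl⟩
    have h := card_le_univ ({a, b, c} : Finset (Fin k × Fin T))
    rw [this, Fintype.card_prod, Fintype.card_fin, Fintype.card_fin] at h
    exact h
  set C := ((univ : Finset (Fin 3 → V)).filter fun x => B (x 0) (x 1) (x 2)).card with hC
  -- the functions with a given exceptional triple
  have hbad : ∀ a b c : Fin k × Fin T, a ≠ b → b ≠ c → a ≠ c →
      ((univ : Finset (Fin k → Fin T → V)).filter fun y =>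
        B (y a.1 a.2) (y b.1 b.2) (y c.1 c.2)).card ≤ C * Fintype.card V ^ (k * T - 3) := by
    intro a b c n1 n2 n3
    have g1 : ((univ : Finset (Fin k → Fin T → V)).filter fun y =>
        B (y a.1 a.2) (y b.1 b.2) (y c.1 c.2)).card ≤
        ((univ : Finset (Fin k × Fin T → V)).filter fun y => B (y a) (y b) (y c)).card := by
      refine card_le_card_of_injOn (fun y q => y q.1 q.2) ?_ ?_
      · intro y hy
        exact mem_coe.2 (mem_filter.2 ⟨mem_univ _, (mem_filter.1 (mem_coe.1 hy)).2⟩)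
      · intro y _ y' _ h
        funext i j
        exact congrFun h (i, j)
    have hinj : Function.Injective ![a, b, c] := by
      intro i j hij
      fin_cases i <;> fin_cases j <;> simp_all
    have g2 := pull' ![a, b, c] hinj
      ((univ : Finset (Fin k × Fin T → V)).filter fun y => B (y a) (y b) (y c))
      ((univ : Finset (Fin 3 → V)).filter fun x => B (x 0) (x 1) (x 2)) (by
        intro w hw
        exact mem_filter.2 ⟨mem_univ _, (mem_filter.1 hw).2⟩)
    rw [Fintype.card_prod, Fintype.card_fin, Fintype.card_fin, Fintype.card_fin] at g2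
    exact g1.trans g2
  have h5 : (Bl k T S).card ≤ (k * T) ^ 3 * (C * Fintype.card V ^ (k * T - 3)) := by
    have g1 : Bl k T S ⊆ ((univ : Finset ((Fin k × Fin T) × (Fin k × Fin T) × (Fin k × Fin T))).filter
        fun q => q.1 ≠ q.2.1 ∧ q.2.1 ≠ q.2.2 ∧ q.1 ≠ q.2.2).biUnion fun q =>
        (univ : Finset (Fin k → Fin T → V)).filter fun y =>
          B (y q.1.1 q.1.2) (y q.2.1.1 q.2.1.2) (y q.2.2.1 q.2.2.2) := by
      intro y hy
      obtain ⟨a, b, c, n1, n2, n3, h⟩ := key y hy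
      exact mem_biUnion.2 ⟨(a, b, c), mem_filter.2 ⟨mem_univ _, n1, n2, n3⟩,
        mem_filter.2 ⟨mem_univ _, h⟩⟩
    refine (card_le_card g1).trans (card_biUnion_le.trans ?_)
    refine (sum_le_card_nsmul _ _ (C * Fintype.card V ^ (k * T - 3)) fun q hq => ?_).trans ?_
    · obtain ⟨-, n1, n2, n3⟩ := mem_filter.1 hq
      exact hbad _ _ _ n1 n2 n3
    · rw [smul_eq_mul]
      refine Nat.mul_le_mul_right _ ?_
      refine (card_le_univ _).trans (le_of_eq ?_)
      simp only [Fintype.card_prod, Fintype.card_fin]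
      ring
  have h6 : ((Bl k T S).card : ℝ) ≤ ((k * T : ℕ) : ℝ) ^ 3 *
      ((C : ℝ) * (Fintype.card V : ℝ) ^ (k * T - 3)) := by exact_mod_cast h5
  have h7 : (C : ℝ) * (Fintype.card V : ℝ) ^ (k * T - 3) ≤
      δ ^ (T ^ k) / (2 * (((k * T : ℕ) : ℝ) ^ 3 + 1)) * (Fintype.card V : ℝ) ^ (k * T) := by
    have e : (Fintype.card V : ℝ) ^ (k * T) =
        (Fintype.card V : ℝ) ^ 3 * (Fintype.card V : ℝ) ^ (k * T - 3) := by
      rw [← pow_add]; congr 1; omega
    rw [e, ← mul_assoc]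
    exact mul_le_mul_of_nonneg_right hB (by positivity)
  have h8 : ((k * T : ℕ) : ℝ) ^ 3 * (δ ^ (T ^ k) / (2 * (((k * T : ℕ) : ℝ) ^ 3 + 1)) *
      (Fintype.card V : ℝ) ^ (k * T)) < (Fintype.card V : ℝ) ^ (k * T) * δ ^ (T ^ k) := by
    have hA : (0 : ℝ) < (Fintype.card V : ℝ) ^ (k * T) * δ ^ (T ^ k) := by positivity
    have hx : (0 : ℝ) ≤ ((k * T : ℕ) : ℝ) ^ 3 := by positivity
    have e : ((k * T : ℕ) : ℝ) ^ 3 * (δ ^ (T ^ k) / (2 * (((k * T : ℕ) : ℝ) ^ 3 + 1)) *
      (Fintype.card V : ℝ) ^ (k * T)) = ((k * T : ℕ) : ℝ) ^ 3 / (2 * (((k * T : ℕ) : ℝ) ^ 3 + 1)) *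
        ((Fintype.card V : ℝ) ^ (k * T) * δ ^ (T ^ k)) := by ring
    rw [e]
    have h9 : ((k * T : ℕ) : ℝ) ^ 3 / (2 * (((k * T : ℕ) : ℝ) ^ 3 + 1)) < 1 := by
      rw [div_lt_one hQ]; linarith
    calc _ < 1 * ((Fintype.card V : ℝ) ^ (k * T) * δ ^ (T ^ k)) :=
          mul_lt_mul_of_pos_right h9 hA
      _ = _ := one_mul _
  have h10 := mul_le_mul_of_nonneg_left h7 (show (0 : ℝ) ≤ ((k * T : ℕ) : ℝ) ^ 3 by positivity)
  linarith

/-- **Homogeneous pairs.** -/
theorem grow (T' : ℕ) : ∃ T : ℕ, T' ≤ T ∧ 0 < T ∧ ∀ (V : Type) (R : V → V → V → Prop) (v : Fin 6 → V)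
    (y : Fin 6 → Fin T → V), ∃ (τ : Fin 6 → Fin 6 → Bool) (h : Fin 6 → Fin T' → Fin T),
      (∀ p, StrictMono (h p)) ∧
      ∀ p r i j, i < j → (R (y p (h p i)) (y p (h p j)) (v r) ↔ τ p r = true) := by
  obtain ⟨N, hN, h⟩ := ramsey (Fin 6 → Bool) T'
  refine ⟨max N 1, hN.trans (le_max_left _ _), by positivity, fun V R v y => ?_⟩
  have h1 : ∀ p : Fin 6, ∃ (τ : Fin 6 → Bool) (f : Fin T' → Fin (max N 1)), StrictMono f ∧
      ∀ r i j, i < j → (R (y p (f i)) (y p (f j)) (v r) ↔ τ r = true) := by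
    intro p
    obtain ⟨B, c, -, hB, hc⟩ := h (Fin (max N 1)) univ (by rw [card_univ, Fintype.card_fin]; exact le_max_left _ _)
      fun i j r => decide (R (y p i) (y p j) (v r))
    refine ⟨c, B.orderEmbOfFin hB, (B.orderEmbOfFin hB).strictMono, fun r i j hij => ?_⟩
    have h2 := hc _ (orderEmbOfFin_mem B hB i) _ (orderEmbOfFin_mem B hB j)
      ((B.orderEmbOfFin hB).strictMono hij)
    have h3 : decide (R (y p (B.orderEmbOfFin hB i)) (y p (B.orderEmbOfFin hB j)) (v r)) = c r :=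
      congrFun h2 r
    rw [← h3, decide_eq_true_iff]
  choose τ f hf hτ using h1
  exact ⟨τ, f, hf, fun p r i j hij => hτ p r i j hij⟩

end Pool.Agent.Run7.h551.TX
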