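import Pool.Agent.Run7.h551.TX.Uni

/-! The finite checks. -/

set_option autoImplicit false
set_option linter.unusedVariables false
set_option linter.unusedSectionVars false
set_option maxRecDepth 100000

open Finset
open scoped Classical

namespace Pool.Agent.Run7.h551.TX

/-- one class is a single vertex -/
def sV (a : ℕ) (r : ℕ) : Bool := r == a

/-- the doubled vertices when the class `a` is a single vertex -/
def dV (a k t : ℕ) (p r : ℕ) : Bool := if sV a r then bt t p else tw (col k p) (col k r)

/-- the check for patterns with one single vertex -/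
def chkV (M : ℕ) (F : Fam) (L : List (ℕ × List ℕ)) : Bool :=
  (List.range 6).all fun a => (List.range 729).all fun k => !(cons (sV a) M k) ||
    (List.range 64).all fun t => !(ckt (sV a) t) || (!(nok4 (sV a) M (dV a k t)) ||
      L.any (embc (sV a) M (dV a k t) F))

/-- the classes 0 and 1 are single vertices -/
def sP (r : ℕ) : Bool := Nat.blt r 2

/-- the doubled vertices when the classes 0 and 1 are single vertices -/
def dP (k t0 t1 : ℕ) (p r : ℕ) : Bool :=
  if sP r then bt (if r == 0 then t0 else t1) p else tw (col k p) (col k r)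

/-- the check for patterns with two single vertices -/
def chkP (M k : ℕ) (F : Fam) (L : List (ℕ × List ℕ)) : Bool :=
  (List.range 64).all fun t0 => !(ckt sP t0) || (List.range 64).all fun t1 => !(ckt sP t1) ||
    (!(nok4 sP M (dP k t0 t1)) || L.any (embc sP M (dP k t0 t1) F))

/-- complete bipartite graphs without an edge -/
def F1 : Fam := ⟨4, 2, 1064⟩
/-- an independent set and a path with isolated vertices, joined -/
def F2 : Fam := ⟨5, 2, 1184296⟩
/-- a triangle and a star -/
def F3 : Fam := ⟨5, 1, 136256⟩

theorem ckA1 : chkV 569959447021696 F1 [(4, [0, 2, 5, 1])] = true := by decide +kernel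
theorem ckB1 : chkV 1695859551520896 F1 [(2, [3, 1, 4, 5]), (2, [4, 0, 3, 5])] = true := by
  decide +kernel
theorem ckA2 : chkV 569959447021696 F2 [(3, [1, 2, 0, 5, 4])] = true := by decide +kernel
theorem ckC2 : chkV 569993807290368 F2 [(4, [0, 4, 1, 3, 2]), (0, [4, 0, 5, 1, 3]),
    (0, [5, 0, 4, 1, 2])] = true := by decide +kernel
theorem ckF3 : chkV 565320882348032 F3 [(1, [5, 3, 2, 4, 0]), (1, [0, 3, 2, 4, 5])] = true := by
  decide +kernel
theorem ckG3 : chkV 569959679797376 F3 [(4, [0, 2, 3, 1, 5])] = true := by decide +kernel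
theorem ckH3 : chkV 585215403632768 F3 [(0, [5, 1, 2, 3, 4]), (0, [4, 1, 3, 2, 5]),
    (5, [5, 2, 2, 2, 0])] = true := by decide +kernel
theorem ckI3 : chkV 585215404157056 F3 [(5, [4, 3, 1, 2, 0]), (5, [0, 1, 3, 2, 4]),
    (4, [0, 3, 3, 2, 5])] = true := by decide +kernel

theorem cq1 : chkP 78274232787689600 594 F1 [(1, [2, 3, 0, 5])] = true := by decide +kernel
theorem cq2 : chkP 78274232787689600 594 F2 [(4, [5, 4, 2, 0, 1])] = true := by decide +kernel
theorem cq3 : chkP 6216639112544384 702 F3 [(1, [2, 5, 3, 4, 0]), (0, [2, 5, 4, 3, 1])] = true := by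
  decide +kernel
theorem cr1 : chkP 5091014087813248 678 F1 [(5, [2, 4, 1, 0])] = true := by decide +kernel
theorem cr2 : chkP 78254716754610304 570 F2 [(4, [5, 4, 0, 1, 2])] = true := by decide +kernel
theorem cr3 : chkP 5086615974199424 705 F3 [(0, [2, 5, 4, 3, 1]), (2, [2, 5, 4, 5, 0])] = true := by
  decide +kernel

end Pool.Agent.Run7.h551.TX
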