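import Pool.Agent.Run7.h551.TX.Prs

/-! The exact numbers for 3-graphs without a given induced graph in their links. -/

set_option autoImplicit false
set_option linter.unusedVariables false
set_option linter.unusedSectionVars false
set_option maxRecDepth 100000

open Finset
open scoped Classical

namespace Pool.Agent.Run7.h551.TX
open Pool.Agent.Y439.Loc hiding sum_nonneg'
open Pool.Agent.TH773
open Pool.Agent.TH773.Turan34 (K43Free turan Induces copies fam XA XB XC XD XE XF XG XH XI)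
open Pool.Agent.Y439
open Pool.Agent.Y903.TX
open Pool.Agent.R105.TP
open Pool.Agent.R573.CL

section
variable {n : ℕ} {H : Finset (Finset (Fin n))} {c : Fin n → Fin 3}

/-- the codegrees of two vertices of a class with a large inner codegree -/
theorem innerN (A : Vx c (Loc.Rel H) (n : ℝ) sig0) {k : Fin 4 → Fin 3} {b : Fin 4 → Bool}
    (hk2 : k 2 ≠ 0) (hk3 : k 3 ≠ 0)
    (hj : ∀ j : Fin 4, (k j = 0 ∧ b j = true) ∨ (k j = 1 ∧ b j = false) ∨ (k j = 2 ∧ b j = false))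
    {x y : Fin n} (hxy : x ≠ y) (hcon : (n : ℝ) / 3000 < io c (Loc.Rel H) x y) :
    c y = c x + 0 ∧ (n : ℝ) / 3000 ≤ NN c (Loc.Rel H) x y (k 0) (b 0) ∧
      (n : ℝ) / 3000 ≤ NN c (Loc.Rel H) x y (k 1) (b 1) ∧
      (n : ℝ) / 5 ≤ NN c (Loc.Rel H) x y (k 2) (b 2) ∧
      (n : ℝ) / 5 ≤ NN c (Loc.Rel H) x y (k 3) (b 3) := by
  have hp : (0 : ℝ) < n := A.pos
  have hcy : c y = c x := by
    by_contra hcy
    have : io c (Loc.Rel H) x y = 0 := sum_eq_zero fun z _ => ind_f fun h => hcy h.1.1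
    rw [this] at hcon
    have : 0 ≤ (n : ℝ) / 3000 := by positivity
    linarith
  -- few vertices of the next class
  have hP : ∑ w, ind (c w = c x + 1 ∧ Loc.Rel H x y w) ≤ (n : ℝ) / 100 := by
    have h1 : io c (Loc.Rel H) x y * ∑ w, ind (c w = c x + 1 ∧ Loc.Rel H x y w) ≤
        wr c (Loc.Rel H) x + wr c (Loc.Rel H) y := by
      unfold io wr
      rw [sum_mul_sum, ← sum_add_distrib]
      refine sum_le_sum fun u _ => ?_
      rw [← sum_add_distrib]
      refine sum_le_sum fun w _ => ?_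
      rw [ind_mul]
      refine ind_or ?_
      rintro ⟨⟨⟨-, hu⟩, hxyu⟩, hw, hxyw⟩
      by_contra hcon
      push Not at hcon
      obtain ⟨g1, g2⟩ := hcon
      have k1 := g1.2 (tu_two hu hw (A.S.ne13 hxyu))
      have k2 := g2.2 (tu_two (by rw [hu, hcy]) (by rw [hw, hcy]) (A.S.ne23 hxyu))
      exact A.S.k4 x y u w hxyu hxyw k1 k2
    have h2 := A.hw x
    have h3 := A.hw y
    have h4 : 0 ≤ ∑ w, ind (c w = c x + 1 ∧ Loc.Rel H x y w) := sum_nonneg' fun _ => ind_nonneg _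
    have h5 : (n : ℝ) / 3000 * ∑ w, ind (c w = c x + 1 ∧ Loc.Rel H x y w) ≤
        n / 3000 * (n / 100) := by
      have e1 := mul_le_mul_of_nonneg_right hcon.le h4
      have e2 : 2 * sig0 ^ 2 * (n : ℝ) ^ 2 ≤ 1 / 300000 * (n : ℝ) ^ 2 :=
        mul_le_mul_of_nonneg_right (by unfold sig0; norm_num) (by positivity)
      have e3 : (n : ℝ) / 3000 * (n / 100) = 1 / 300000 * (n : ℝ) ^ 2 := by ring
      rw [e3]
      linarith
    exact le_of_mul_le_mul_left h5 (by positivity)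
  have hQ : ∑ w, ind (c w = c x + 2 ∧ Loc.Rel H x y w) ≤ (n : ℝ) / 100 := by
    have h1 := Mp_le A sig0_pos x y hcy
    have h5 : 2 * sig0 * (n : ℝ) ≤ 1 / 100 * n :=
      mul_le_mul_of_nonneg_right (by unfold sig0; norm_num) hp.le
    unfold Mp at h1
    linarith
  have hN : ∀ q : Fin 3, ∑ w, ind (c w = c x + q ∧ Loc.Rel H x y w) ≤ (n : ℝ) / 100 →
      (n : ℝ) / 5 ≤ NN c (Loc.Rel H) x y q false := by
    intro q hq
    have h1 := size_prev A (show sig0 ≤ 1 / 100 by unfold sig0; norm_num) (c x + q)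
    have h2 : sz c (c x + q) ≤ NN c (Loc.Rel H) x y q false +
        ∑ w, ind (c w = c x + q ∧ Loc.Rel H x y w) := by
      unfold sz NN
      rw [← sum_add_distrib]
      refine sum_le_sum fun w _ => ind_or fun hw => ?_
      by_cases h : Loc.Rel H x y w
      · exact Or.inr ⟨hw, h⟩
      · exact Or.inl ⟨hw, iff_of_false h (by decide)⟩
    linarith
  have hU : (n : ℝ) / 3000 ≤ NN c (Loc.Rel H) x y 0 true := by
    refine hcon.le.trans (sum_le_sum fun w _ => ind_mono fun h => ⟨by rw [h.1.2, add_zero], ?_⟩)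
    exact iff_of_true h.2 rfl
  have hall : ∀ j, (n : ℝ) / 3000 ≤ NN c (Loc.Rel H) x y (k j) (b j) := by
    intro j
    have h5 : (n : ℝ) / 3000 ≤ n / 5 := by linarith
    rcases hj j with ⟨g1, g2⟩ | ⟨g1, g2⟩ | ⟨g1, g2⟩ <;> rw [g1, g2]
    exacts [hU, h5.trans (hN 1 hP), h5.trans (hN 2 hQ)]
  have hout : ∀ j, k j ≠ 0 → (n : ℝ) / 5 ≤ NN c (Loc.Rel H) x y (k j) (b j) := by
    intro j hj0
    rcases hj j with ⟨g1, g2⟩ | ⟨g1, g2⟩ | ⟨g1, g2⟩
    · exact absurd g1 hj0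
    · rw [g1, g2]; exact hN 1 hP
    · rw [g1, g2]; exact hN 2 hQ
  exact ⟨by rw [hcy, add_zero], hall 0, hall 1, hout 2 hk2, hout 3 hk3⟩

/-- the codegrees of the vertices of a reversed arc -/
theorem revN {k : Fin 4 → Fin 3} {b : Fin 4 → Bool}
    (hj : ∀ j : Fin 4, (k j = 0 ∧ b j = true) ∨ (k j = 1 ∧ b j = true) ∨ (k j = 2 ∧ b j = false))
    {x y : Fin n} (hxy : c y = c x + 1) (h0 : (n : ℝ) / 5 ≤ nu c (Loc.Rel H) x y)
    (h1 : (n : ℝ) / 5 ≤ ∑ u, ind (c u = c x ∧ Loc.Rel H x y u))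
    (h2 : (n : ℝ) / 5 ≤ ∑ u, ind (c u = c y ∧ Loc.Rel H x y u)) (j : Fin 4) :
    (n : ℝ) / 5 ≤ NN c (Loc.Rel H) x y (k j) (b j) := by
  rcases hj j with ⟨g1, g2⟩ | ⟨g1, g2⟩ | ⟨g1, g2⟩
  · rw [g1, g2]
    refine h1.trans (sum_le_sum fun w _ => ind_mono fun h => ⟨by rw [h.1, add_zero], ?_⟩)
    exact iff_of_true h.2 rfl
  · rw [g1, g2]
    refine h2.trans (sum_le_sum fun w _ => ind_mono fun h => ⟨by rw [h.1, hxy], ?_⟩)
    exact iff_of_true h.2 rfl
  · rw [g1, g2]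
    refine h0.trans (sum_le_sum fun w _ => ind_mono fun h => ⟨h.1, ?_⟩)
    exact iff_of_false h.2 (by decide)

/-- stability for the 3-graphs with copies of a vertex -/
theorem clnstab_of {Fs : List (Finset (Finset (Fin 6)))} (D : Lst Fs) (hn : 0 < n)
    (hH : ∀ e ∈ H, e.card = 3) (hK : K43Free H)
    (hv : ∀ v, (vcop Fs H v : ℝ) ≤ 1 / 10 ^ 212 * (n : ℝ) ^ 5) : ClnStab H := by
  intro v m hm
  have hn' : (0 : ℝ) < n := by exact_mod_cast hn
  refine stab_real D (cln_unif v m) (cln_free hH hK v m) (by omega) ?_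
  obtain ⟨B, hBd⟩ : ∃ B : ℕ, B = ⌊1 / 10 ^ 212 * (n : ℝ) ^ 5⌋₊ := ⟨_, rfl⟩
  have hB : (B : ℝ) ≤ 1 / 10 ^ 212 * (n : ℝ) ^ 5 := by
    rw [hBd]; exact Nat.floor_le (by positivity)
  have hv' : ∀ x, vcop Fs H x ≤ B := fun x => by rw [hBd]; exact Nat.le_floor (hv x)
  have hc := copies_le Fs hv'
  have k1 := copies_cln hH D.cov v m
  have k2 : copies Fs (cln v m H) ≤ n * B + m * B :=
    k1.trans (add_le_add hc (Nat.mul_le_mul_left _ (hv' v)))
  have k3 : (copies Fs (cln v m H) : ℝ) ≤ n * B + m * B := by exact_mod_cast k2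
  have hnm : (n : ℝ) ≤ ((n + m : ℕ) : ℝ) := by push_cast; linarith [Nat.cast_nonneg (α := ℝ) m]
  have k4 : (copies Fs (cln v m H) : ℝ) ≤ 1 / 10 ^ 212 * ((n + m : ℕ) : ℝ) ^ 6 := by
    refine k3.trans ?_
    have a1 : (n : ℝ) ^ 5 ≤ ((n + m : ℕ) : ℝ) ^ 5 := pow_le_pow_left₀ hn'.le hnm 5
    calc (n : ℝ) * B + m * B = ((n + m : ℕ) : ℝ) * B := by push_cast; ring
      _ ≤ ((n + m : ℕ) : ℝ) * (1 / 10 ^ 212 * (n : ℝ) ^ 5) :=
        mul_le_mul_of_nonneg_left hB (Nat.cast_nonneg _)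
      _ ≤ ((n + m : ℕ) : ℝ) * (1 / 10 ^ 212 * ((n + m : ℕ) : ℝ) ^ 5) :=
        mul_le_mul_of_nonneg_left (mul_le_mul_of_nonneg_left a1 (by positivity))
          (Nat.cast_nonneg _)
      _ = _ := by ring
  have k5 : (83684966400 : ℝ) * (1 / 10 ^ 212) ≤ th0 ^ 2 := by unfold th0; norm_num
  have k6 := mul_le_mul_of_nonneg_right k5 (show (0 : ℝ) ≤ ((n + m : ℕ) : ℝ) ^ 6 by positivity)
  linarith

end

/-- the data for a list of six-vertex 3-graphs and a family of graphs -/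
structure Dt (Fs : List (Finset (Finset (Fin 6)))) (F : Fam) : Prop where
  lst : Lst Fs
  ms : ∃ Ms : Finset ℕ, Ms.card ≤ 4 ∧ (∀ X ∈ Fs, ∃ M ∈ Ms, IsMask X M) ∧
    ∀ M ∈ Ms, ∃ L, chkV M F L = true
  inn : ∃ (k : Fin 4 → Fin 3) (b : Fin 4 → Bool) (M K : ℕ) (L : List (ℕ × List ℕ)),
    chkP M K F L = true ∧ (∀ i j l : Fin 6, i < j → j < l →
      (G6 0 k b i j l = true ↔ bt M (2 ^ i.val + 2 ^ j.val + 2 ^ l.val) = true)) ∧
    (∀ p : Fin 6, (cls 0 k p).val = col K p) ∧ (k 2 ≠ 0 ∧ k 3 ≠ 0) ∧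
    ∀ j : Fin 4, (k j = 0 ∧ b j = true) ∨ (k j = 1 ∧ b j = false) ∨ (k j = 2 ∧ b j = false)
  rev : ∃ (k : Fin 4 → Fin 3) (b : Fin 4 → Bool) (M K : ℕ) (L : List (ℕ × List ℕ)),
    chkP M K F L = true ∧ (∀ i j l : Fin 6, i < j → j < l →
      (G6 1 k b i j l = true ↔ bt M (2 ^ i.val + 2 ^ j.val + 2 ^ l.val) = true)) ∧
    (∀ p : Fin 6, (cls 1 k p).val = col K p) ∧
    ∀ j : Fin 4, (k j = 0 ∧ b j = true) ∨ (k j = 1 ∧ b j = true) ∨ (k j = 2 ∧ b j = false)

theorem rel_del {m : ℕ} (v : Fin (m + 1)) (H : Finset (Finset (Fin (m + 1)))) (x y z : Fin m) :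
    Loc.Rel (del v H) x y z ↔ Loc.Rel H (v.succAbove x) (v.succAbove y) (v.succAbove z) := by
  have hm : ({x, y, z} : Finset (Fin m)) ∈ del v H ↔
      ({v.succAbove x, v.succAbove y, v.succAbove z} : Finset (Fin (m + 1))) ∈ H := by
    rw [mem_del, map_eq_image, image_insert, image_insert, image_singleton]
    rfl
  constructor
  · rintro ⟨h1, h2, h3, h4⟩
    exact ⟨fun e => h1 (Fin.succAbove_right_injective e), fun e => h2 (Fin.succAbove_right_injective e),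
      fun e => h3 (Fin.succAbove_right_injective e), hm.1 h4⟩
  · rintro ⟨h1, h2, h3, h4⟩
    exact ⟨fun e => h1 (by rw [e]), fun e => h2 (by rw [e]), fun e => h3 (by rw [e]), hm.2 h4⟩

theorem lk_del {m : ℕ} {v : Fin (m + 1)} {H : Finset (Finset (Fin (m + 1)))} {α : Type}
    {Adj : α → α → Prop} (h : Lk (Loc.Rel (del v H)) Adj) : Lk (Loc.Rel H) Adj := by
  obtain ⟨x, f, h1, h2, h3⟩ := h
  refine ⟨v.succAbove x, fun u => v.succAbove (f u), fun u w huw =>
    h1 (Fin.succAbove_right_injective huw), fun u e => h2 u (Fin.succAbove_right_injective e),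
    fun u w huw => ?_⟩
  rw [h3 u w huw, rel_del]

/-- **The exact numbers.** -/
theorem exact_link {Fs : List (Finset (Finset (Fin 6)))} {F : Fam} (D : Dt Fs F) {α : Type}
    [Fintype α] {Adj : α → α → Prop} (hA : Mem F Adj)
    (hstab : ∀ ε : ℝ, 0 < ε → ∃ n0 : ℕ, ∀ n, n0 ≤ n → ∀ H : Finset (Finset (Fin n)),
      (∀ e ∈ H, e.card = 3) → K43Free H → ¬ Lk (Loc.Rel H) Adj → ∃ g : Fin n → Fin 3,
        ((symmDiff H (turan g)).card : ℝ) ≤ KK * (5 / 54 * (n : ℝ) ^ 3 - H.card) + ε * (n : ℝ) ^ 3) :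
    ∃ n0 : ℕ, ∀ n, n0 ≤ n → ∀ H : Finset (Finset (Fin n)), (∀ e ∈ H, e.card = 3) → K43Free H →
      ¬ Lk (Loc.Rel H) Adj →
        H.card ≤ tnum n ∧ (H.card = tnum n → ∃ g : Fin n → Fin 3, H = turan g) := by
  obtain ⟨Ms, hMs, hM1, hM2⟩ := D.ms
  obtain ⟨k1, b1, M1, K1, L1, c1, hG1, hK1, ⟨hk2, hk3⟩, hj1⟩ := D.inn
  obtain ⟨k2, b2, M2, K2, L2, c2, hG2, hK2, hj2⟩ := D.rev
  obtain ⟨ev, hev, hV⟩ := vstep (Fs := Fs) Ms hMs hM1 hM2 hA (θ := 1 / 10 ^ 212) (by positivity)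
  obtain ⟨e1, he1, hP1⟩ := pstep c1 hA hG1 hK1 (fun j => by
    rcases hj1 j with ⟨g1, g2⟩ | ⟨g1, g2⟩ | ⟨g1, g2⟩
    · exact Or.inl g2
    · right; rw [g1]; decide
    · right; rw [g1]; decide)
  obtain ⟨e2, he2, hP2⟩ := pstep c2 hA hG2 hK2 (fun j => by
    rcases hj2 j with ⟨g1, g2⟩ | ⟨g1, g2⟩ | ⟨g1, g2⟩
    · exact Or.inl g2
    · exact Or.inl g2
    · right; rw [g1]; decide)
  have hE := eps0_pos
  have hE6 : 0 < (eps0 / 6) ^ 2 := by positivity
  have hKK : (0 : ℝ) < KK := by unfold KK; norm_num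
  -- the constants
  obtain ⟨ε, hε0, hεv, hε1, hε2, hε3, hε4⟩ : ∃ ε : ℝ, 0 < ε ∧ 12 * ε ≤ ev ∧ 12 * ε ≤ e1 ∧
      12 * ε ≤ e2 ∧ 2 * ε ≤ (eps0 / 6) ^ 2 ∧ ε ≤ eps0 ^ 2 / 72 := by
    refine ⟨min (min (ev / 12) (e1 / 12)) (min (e2 / 12) (min ((eps0 / 6) ^ 2 / 2)
      (eps0 ^ 2 / 72))), by positivity, ?_, ?_, ?_, ?_, ?_⟩
    · have : min (min (ev / 12) (e1 / 12)) (min (e2 / 12) (min ((eps0 / 6) ^ 2 / 2)
        (eps0 ^ 2 / 72))) ≤ ev / 12 := (min_le_left _ _).trans (min_le_left _ _)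
      linarith
    · have : min (min (ev / 12) (e1 / 12)) (min (e2 / 12) (min ((eps0 / 6) ^ 2 / 2)
        (eps0 ^ 2 / 72))) ≤ e1 / 12 := (min_le_left _ _).trans (min_le_right _ _)
      linarith
    · have : min (min (ev / 12) (e1 / 12)) (min (e2 / 12) (min ((eps0 / 6) ^ 2 / 2)
        (eps0 ^ 2 / 72))) ≤ e2 / 12 := (min_le_right _ _).trans (min_le_left _ _)
      linarith
    · have : min (min (ev / 12) (e1 / 12)) (min (e2 / 12) (min ((eps0 / 6) ^ 2 / 2)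
        (eps0 ^ 2 / 72))) ≤ (eps0 / 6) ^ 2 / 2 :=
        (min_le_right _ _).trans ((min_le_right _ _).trans (min_le_left _ _))
      linarith
    · exact (min_le_right _ _).trans ((min_le_right _ _).trans (min_le_right _ _))
  obtain ⟨n1, hn1⟩ := hstab ε hε0
  obtain ⟨n2, hn2⟩ := exists_nat_ge ((KK + 1) / ε)
  -- the class
  have C : ClsB (fun N n H => 2 * max n1 n2 ≤ N ∧ ¬ Lk (Loc.Rel H) Adj) KK TurG := by
    refine ⟨hKK.le, fun N m v H hP => ⟨hP.1, fun h => hP.2 (lk_del h)⟩, ?_, ?_⟩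
    · intro N n hn hN H hH hK hP
      have hn1' : n1 ≤ n := by
        have := hP.1
        have := le_max_left n1 n2
        omega
      obtain ⟨g, hg⟩ := hn1 n hn1' H hH hK hP.2
      have hn' : (0 : ℝ) < n := by exact_mod_cast hn
      have h3 : ε * (n : ℝ) ^ 3 ≤ eps0 ^ 2 / 72 * (n : ℝ) ^ 3 :=
        mul_le_mul_of_nonneg_right hε4 (by positivity)
      refine ⟨?_, g, by linarith⟩
      have h4 : (0 : ℝ) ≤ ((symmDiff H (turan g)).card : ℝ) := Nat.cast_nonneg _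
      have h5 : 0 ≤ eps0 ^ 2 / 72 * (n : ℝ) ^ 3 := by positivity
      have h6 : KK = 1161216000 := rfl
      rw [h6] at hg
      linarith
    · intro N n hn hN H g0 hH hK hP hn1e h1 h2 hdeg
      by_cases hcard : tnum n ≤ H.card
      swap
      · have := not_le.1 hcard
        exact ⟨this.le, fun h => absurd h this.ne⟩
      have hn1' : n1 ≤ n := by
        have := hP.1
        have := le_max_left n1 n2
        omega
      have hn2' : n2 ≤ n := by
        have := hP.1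
        have := le_max_right n1 n2
        omega
      have hn' : (0 : ℝ) < n := by exact_mod_cast hn
      have hbig : KK + 1 ≤ ε * n := by
        have : (KK + 1) / ε ≤ (n : ℝ) := hn2.trans (by exact_mod_cast hn2')
        rw [div_le_iff₀ hε0] at this
        linarith
      obtain ⟨g, hg⟩ := hn1 n hn1' H hH hK hP.2
      have hlow := tnum_low n
      have hc2 : (tnum n : ℝ) ≤ (H.card : ℝ) := by exact_mod_cast hcard
      have hsd : ((symmDiff H (turan g)).card : ℝ) ≤ 2 * ε * (n : ℝ) ^ 3 := by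
        have a1 : KK * (5 / 54 * (n : ℝ) ^ 3 - H.card) ≤ KK * (n : ℝ) ^ 2 :=
          mul_le_mul_of_nonneg_left (by linarith) hKK.le
        have a2 : KK * (n : ℝ) ^ 2 ≤ ε * n * (n : ℝ) ^ 2 :=
          mul_le_mul_of_nonneg_right (by linarith) (by positivity)
        have a3 : ε * n * (n : ℝ) ^ 2 = ε * (n : ℝ) ^ 3 := by ring
        linarith
      have hW : WD g (Loc.Rel H) ≤ 12 * ε * (n : ℝ) ^ 3 := by
        rw [WD_card hH]
        linarith
      have S := rel_sys g H hK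
      have hn12 : 1 ≤ 12 * ε * (n : ℝ) := by nlinarith
      have hB := base_of S 0 hn hn12 hW
      have hv := hV n H _ _ (hB.mono hεv) hP.2
      have hcl := clnstab_of D.lst hn hH hK hv
      have h1' : ((symmDiff H (turan g)).card : ℝ) ≤ (eps0 / 6) ^ 2 * (n : ℝ) ^ 3 :=
        hsd.trans (mul_le_mul_of_nonneg_right hε3 (by positivity))
      obtain ⟨c, A, hchg⟩ := vx2 hcl hH hK hn1e g h1' h2 hdeg
      have hWe : ∀ e : ℝ, 12 * ε ≤ e → WD g (Loc.Rel H) ≤ e * (n : ℝ) ^ 3 := fun e he =>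
        hW.trans (mul_le_mul_of_nonneg_right he (by positivity))
      have hne : ∀ e : ℝ, 12 * ε ≤ e → 1 ≤ e * (n : ℝ) := fun e he =>
        hn12.trans (mul_le_mul_of_nonneg_right he hn'.le)
      have hin : ∀ x y, io c (Loc.Rel H) x y ≤ (n : ℝ) / 3000 := by
        intro x y
        by_cases hxy : x = y
        · rw [← hxy, io_self A.S]; positivity
        by_contra hcon
        push Not at hcon
        obtain ⟨q0, q1, q2, q3, q4⟩ := innerN A hk2 hk3 hj1 hxy hcon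
        exact hP.2 (hP1 n H g c A hchg (hne _ hε1) (hWe _ hε1) x y hxy q0 q1 q2 q3 q4)
      have h := near_apply A (n / 3) (n % 3) (n_div n) (by omega) hin
      rw [total_count H hH, ← tnum_TT n] at h
      refine ⟨?_, fun heq => ?_⟩
      · have h1 : (H.card : ℝ) ≤ (tnum n : ℝ) := by linarith [h.1]
        exact_mod_cast h1
      · have h1 : 6 * (H.card : ℝ) = 6 * (tnum n : ℝ) := by rw [heq]
        obtain ⟨rev, hrel⟩ := h.2 h1
        have hT := uniq2 A hrel (fun x y hxy h0 h1 h2 => by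
          have hne' : x ≠ y := fun e => fin3_ne1 (c x) (by rw [← hxy, ← e])
          have hN := revN (k := k2) (b := b2) hj2 hxy h0 h1 h2
          have h5 : (n : ℝ) / 3000 ≤ n / 5 := by linarith
          exact hP.2 (hP2 n H g c A hchg (hne _ hε2) (hWe _ hε2) x y hne' hxy (h5.trans (hN 0))
            (h5.trans (hN 1)) (hN 2) (hN 3)))
        refine ⟨c, ?_⟩
        ext e
        constructor
        · intro he
          obtain ⟨x, y, z, n1, n2, n3, rfl⟩ := card_eq_three.1 (hH e he)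
          exact ((rel_tgraph c x y z).2 ((hT x y z).1 ⟨n1, n3, n2, he⟩)).2.2.2
        · intro he
          have h3 : e.card = 3 := by
            unfold tgraph at he
            exact (mem_filter.mp he).2.1
          obtain ⟨x, y, z, n1, n2, n3, rfl⟩ := card_eq_three.1 h3
          exact ((hT x y z).2 ((rel_tgraph c x y z).1 ⟨n1, n3, n2, he⟩)).2.2.2
  obtain ⟨n0, h⟩ := exact_of_clsB C
  refine ⟨max n0 (2 * max n1 n2), fun n hn H h3 hK hL => ?_⟩
  by_cases hc : tnum n ≤ H.card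
  · obtain ⟨h1, g, hg⟩ := h n ((le_max_left _ _).trans hn) H h3 hK
      ⟨(le_max_right _ _).trans hn, hL⟩ hc
    exact ⟨h1.le, fun _ => ⟨g, by rw [turan_tgraph]; exact hg⟩⟩
  · have h1 := not_le.1 hc
    exact ⟨h1.le, fun h => absurd h h1.ne⟩

end Pool.Agent.Run7.h551.TX
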