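import Pool.Agent.Run7.h551.TX.Blow

/-! Blown-up patterns on six classes, some of which are single vertices, and the graphs in the links
of their vertices. -/

set_option autoImplicit false
set_option linter.unusedVariables false
set_option linter.unusedSectionVars false

open Finset
open scoped Classical

namespace Pool.Agent.Run7.h551.TX

/-- a binary digit -/
def bt (m i : ℕ) : Bool := m / 2 ^ i % 2 == 1

/-- a ternary digit -/
def col (k p : ℕ) : ℕ := k / 3 ^ p % 3

/-- two vertices of class `a` and one of class `b` in Turán's construction -/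
def tw (a b : ℕ) : Bool := (a + 1) % 3 == b

/-- Turán's construction -/
def t3 (a b d : ℕ) : Bool :=
  if a == b then tw a d else if b == d then tw b a else if a == d then tw a b else true

/-- the value of a pattern at three classes -/
def pvN (M : ℕ) (dbl : ℕ → ℕ → Bool) (p q r : ℕ) : Bool :=
  if p == q then (if q == r then false else dbl p r)
  else if q == r then dbl q p
  else if p == r then dbl p q
  else bt M (2 ^ p + 2 ^ q + 2 ^ r)

/-- a family of graphs: the number `m` of classes, the number `i` of infinite classes, the adjacent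
pairs of classes -/
structure Fam where
  m : ℕ
  i : ℕ
  A : ℕ

/-- a member of the family in the link of a vertex of class `e` -/
def embc (s : ℕ → Bool) (M : ℕ) (dbl : ℕ → ℕ → Bool) (F : Fam) (c : ℕ × List ℕ) : Bool :=
  decide (c.1 < 6) && ((List.range F.m).all fun k => decide (c.2.getD k 0 < 6) &&
    !(s (c.2.getD k 0) && (c.1 == c.2.getD k 0)) &&
    ((List.range F.m).all fun l => !(decide (k < l)) ||
      (!(s (c.2.getD k 0) && (c.2.getD k 0 == c.2.getD l 0)) &&
        (pvN M dbl c.1 (c.2.getD k 0) (c.2.getD l 0) == bt F.A (2 ^ k + 2 ^ l)))) &&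
    (!(decide (k < F.i)) || (!(s (c.2.getD k 0)) &&
      !(pvN M dbl c.1 (c.2.getD k 0) (c.2.getD k 0)))))

/-- no four vertices with four edges, for the doubled vertices -/
def nok4 (s : ℕ → Bool) (M : ℕ) (dbl : ℕ → ℕ → Bool) : Bool :=
  (List.range 6).all fun p => s p || (List.range 6).all fun r => (p == r) ||
    (List.range r).all fun q => (p == q) || !(dbl p r && dbl p q && bt M (2 ^ p + 2 ^ q + 2 ^ r))

/-- the classes which are not single agree with Turán's construction -/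
def cons (s : ℕ → Bool) (M k : ℕ) : Bool :=
  (List.range 6).all fun r => s r || (List.range r).all fun q => s q || (List.range q).all fun p =>
    s p || (t3 (col k p) (col k q) (col k r) == bt M (2 ^ p + 2 ^ q + 2 ^ r))

/-- a blown-up pattern -/
structure Cfg {V : Type} (R : V → V → V → Prop) (T : ℕ) (s : ℕ → Bool) (M : ℕ)
    (dbl : ℕ → ℕ → Bool) (z : Fin 6 → Fin T → V) : Prop where
  s1 : ∀ x y w, R x y w → R x w y
  s2 : ∀ x y w, R x y w → R y x w
  ne : ∀ x y w, R x y w → x ≠ y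
  inj : ∀ p q : Fin 6, p ≠ q → ∀ i j, z p i ≠ z q j
  inj' : ∀ p : Fin 6, s p = false → ∀ i j, i ≠ j → z p i ≠ z p j
  v3 : ∀ p q r : Fin 6, p < q → q < r → ∀ i j l,
    (R (z p i) (z q j) (z r l) ↔ bt M (2 ^ p.val + 2 ^ q.val + 2 ^ r.val) = true)
  v2 : ∀ p r : Fin 6, s p = false → p ≠ r → ∀ i j l, i ≠ j →
    (R (z p i) (z p j) (z r l) ↔ dbl p r = true)
  v1 : ∀ p : Fin 6, s p = false → ∀ i j l, i ≠ j → j ≠ l → i ≠ l → ¬ R (z p i) (z p j) (z p l)

section
variable {V : Type} {R : V → V → V → Prop} {T : ℕ} {s : ℕ → Bool} {M : ℕ} {dbl : ℕ → ℕ → Bool}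
  {z : Fin 6 → Fin T → V}

theorem Cfg.v3' (C : Cfg R T s M dbl z) (p q r : Fin 6) (h1 : p ≠ q) (h2 : q ≠ r) (h3 : p ≠ r)
    (i j l : Fin T) :
    R (z p i) (z q j) (z r l) ↔ bt M (2 ^ p.val + 2 ^ q.val + 2 ^ r.val) = true := by
  have k1 := C.s1
  have k2 := C.s2
  rcases lt_or_gt_of_ne h1 with g1 | g1 <;> rcases lt_or_gt_of_ne h2 with g2 | g2 <;>
    rcases lt_or_gt_of_ne h3 with g3 | g3
  · exact C.v3 p q r g1 g2 i j l
  · exact absurd (g1.trans g2) (not_lt.2 g3.le)
  · rw [show 2 ^ p.val + 2 ^ q.val + 2 ^ r.val = 2 ^ p.val + 2 ^ r.val + 2 ^ q.val by ring,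
      ← C.v3 p r q g3 g2 i l j]
    exact ⟨k1 _ _ _, k1 _ _ _⟩
  · rw [show 2 ^ p.val + 2 ^ q.val + 2 ^ r.val = 2 ^ r.val + 2 ^ p.val + 2 ^ q.val by ring,
      ← C.v3 r p q g3 g1 l i j]
    exact ⟨fun h => k2 _ _ _ (k1 _ _ _ h), fun h => k1 _ _ _ (k2 _ _ _ h)⟩
  · rw [show 2 ^ p.val + 2 ^ q.val + 2 ^ r.val = 2 ^ q.val + 2 ^ p.val + 2 ^ r.val by ring,
      ← C.v3 q p r g1 g3 j i l]
    exact ⟨k2 _ _ _, k2 _ _ _⟩
  · rw [show 2 ^ p.val + 2 ^ q.val + 2 ^ r.val = 2 ^ q.val + 2 ^ r.val + 2 ^ p.val by ring,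
      ← C.v3 q r p g2 g3 j l i]
    exact ⟨fun h => k1 _ _ _ (k2 _ _ _ h), fun h => k2 _ _ _ (k1 _ _ _ h)⟩
  · exact absurd (g2.trans g1) (not_lt.2 g3.le)
  · rw [show 2 ^ p.val + 2 ^ q.val + 2 ^ r.val = 2 ^ r.val + 2 ^ q.val + 2 ^ p.val by ring,
      ← C.v3 r q p g2 g1 l j i]
    exact ⟨fun h => k1 _ _ _ (k2 _ _ _ (k1 _ _ _ h)), fun h => k1 _ _ _ (k2 _ _ _ (k1 _ _ _ h))⟩

theorem beq_val {p q : Fin 6} : (p.val == q.val) = decide (p = q) := by
  by_cases h : p = q
  · subst h; simp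
  · have : p.val ≠ q.val := fun e => h (Fin.ext e)
    simp [h, this]

/-- the values of the pattern -/
theorem Cfg.pv (C : Cfg R T s M dbl z) (p q r : Fin 6) (i j l : Fin T)
    (h1 : p = q → i ≠ j ∧ s p = false) (h2 : q = r → j ≠ l ∧ s q = false)
    (h3 : p = r → i ≠ l ∧ s p = false) :
    R (z p i) (z q j) (z r l) ↔ pvN M dbl p q r = true := by
  have k1 := C.s1
  have k2 := C.s2
  unfold pvN
  rw [beq_val, beq_val, beq_val]
  by_cases g1 : p = q
  · subst g1
    by_cases g2 : p = r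
    · subst g2
      simp only [decide_true, if_true, Bool.false_eq_true, iff_false]
      exact C.v1 p (h1 rfl).2 i j l (h1 rfl).1 (h2 rfl).1 (h3 rfl).1
    · simp only [decide_true, if_true, g2, decide_false, Bool.false_eq_true, if_false]
      exact C.v2 p r (h1 rfl).2 g2 i j l (h1 rfl).1
  · by_cases g2 : q = r
    · subst g2
      simp only [decide_true, if_true, g1, decide_false, Bool.false_eq_true, if_false]
      rw [← C.v2 q p (h2 rfl).2 (Ne.symm g1) j l i (h2 rfl).1]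
      exact ⟨fun h => k1 _ _ _ (k2 _ _ _ h), fun h => k2 _ _ _ (k1 _ _ _ h)⟩
    · by_cases g3 : p = r
      · subst g3
        simp only [decide_true, if_true, g1, g2, decide_false, Bool.false_eq_true, if_false]
        rw [← C.v2 p q (h3 rfl).2 g1 i l j (h3 rfl).1]
        exact ⟨k1 _ _ _, k1 _ _ _⟩
      · simp only [g1, g2, g3, decide_false, Bool.false_eq_true, if_false]
        exact C.v3' p q r g1 g2 g3 i j l

/-- the condition on the doubled vertices -/
theorem Cfg.nok (C : Cfg R T s M dbl z)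
    (k4 : ∀ x y w u, R x y w → R x y u → R x w u → R y w u → False) (hT : 2 ≤ T) :
    nok4 s M dbl = true := by
  have i0 : (⟨0, by omega⟩ : Fin T) ≠ ⟨1, by omega⟩ := by
    intro h; exact absurd (Fin.mk.inj_iff.1 h) (by norm_num)
  unfold nok4
  rw [List.all_eq_true]
  intro p hp
  rw [Bool.or_eq_true, or_iff_not_imp_left]
  intro hs
  rw [Bool.not_eq_true] at hs
  rw [List.all_eq_true]
  intro r hr
  rw [Bool.or_eq_true, or_iff_not_imp_left]
  intro hpr
  rw [List.all_eq_true]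
  intro q hq
  rw [Bool.or_eq_true, or_iff_not_imp_left]
  intro hpq
  rw [List.mem_range] at hp hr hq
  rw [beq_iff_eq] at hpr hpq
  rw [Bool.not_eq_true']
  by_contra hcon
  rw [Bool.not_eq_false, Bool.and_eq_true, Bool.and_eq_true] at hcon
  obtain ⟨⟨a1, a2⟩, a3⟩ := hcon
  have n1 : (⟨p, hp⟩ : Fin 6) ≠ ⟨r, hr⟩ := fun e => hpr (Fin.mk.inj_iff.1 e)
  have n2 : (⟨p, hp⟩ : Fin 6) ≠ ⟨q, by omega⟩ := fun e => hpq (Fin.mk.inj_iff.1 e)
  have n3 : (⟨q, by omega⟩ : Fin 6) ≠ ⟨r, hr⟩ := fun e => (by omega : q ≠ r) (Fin.mk.inj_iff.1 e)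
  have b1 := (C.v2 ⟨p, hp⟩ ⟨q, by omega⟩ hs n2 ⟨0, by omega⟩ ⟨1, by omega⟩ ⟨0, by omega⟩ i0).2 a2
  have b2 := (C.v2 ⟨p, hp⟩ ⟨r, hr⟩ hs n1 ⟨0, by omega⟩ ⟨1, by omega⟩ ⟨0, by omega⟩ i0).2 a1
  have b3 := (C.v3' ⟨p, hp⟩ ⟨q, by omega⟩ ⟨r, hr⟩ n2 n3 n1 ⟨0, by omega⟩ ⟨0, by omega⟩ ⟨0, by omega⟩).2 a3
  have b4 := (C.v3' ⟨p, hp⟩ ⟨q, by omega⟩ ⟨r, hr⟩ n2 n3 n1 ⟨1, by omega⟩ ⟨0, by omega⟩ ⟨0, by omega⟩).2 a3
  exact k4 _ _ _ _ b1 b2 b3 b4

/-- **A member of the family in a link.** -/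
theorem Cfg.emb (C : Cfg R T s M dbl z) {F : Fam} {c : ℕ × List ℕ} (hc : embc s M dbl F c = true)
    {α : Type} [Fintype α] (hT : Fintype.card α + 1 ≤ T) (φ : α → ℕ) (hφ : ∀ u, φ u < F.m)
    (Adj : α → α → Prop) (hA : ∀ u v, Adj u v → Adj v u)
    (hlt : ∀ u v, φ u < φ v → (Adj u v ↔ bt F.A (2 ^ φ u + 2 ^ φ v) = true))
    (heq : ∀ u v, u ≠ v → φ u = φ v → φ u < F.i ∧ ¬ Adj u v) :
    ∃ (v : V) (f : α → V), Function.Injective f ∧ (∀ u, f u ≠ v) ∧
      ∀ u w, u ≠ w → (Adj u w ↔ R v (f u) (f w)) := by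
  unfold embc at hc
  simp only [Bool.and_eq_true, List.all_eq_true, List.mem_range, decide_eq_true_eq,
    Bool.or_eq_true, Bool.not_eq_true', decide_eq_false_iff_not, Bool.and_eq_false_iff,
    beq_eq_false_iff_ne, beq_iff_eq] at hc
  obtain ⟨he, hk⟩ := hc
  set e : Fin 6 := ⟨c.1, he⟩ with hee
  have hlt6 : ∀ u, c.2.getD (φ u) 0 < 6 := fun u => (hk _ (hφ u)).1.1.1
  let P : α → Fin 6 := fun u => ⟨c.2.getD (φ u) 0, hlt6 u⟩
  let idx : α → Fin T := fun u => ⟨(Fintype.equivFin α u).val + 1, by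
    have := (Fintype.equivFin α u).isLt
    omega⟩
  have hidx : ∀ u w, u ≠ w → idx u ≠ idx w := by
    intro u w huw h
    have h1 := Fin.mk.inj_iff.1 h
    exact huw ((Fintype.equivFin α).injective (Fin.ext (by omega)))
  have hT0 : 0 < T := by omega
  have hidx0 : ∀ u, (⟨0, hT0⟩ : Fin T) ≠ idx u := by
    intro u h
    have h1 := Fin.mk.inj_iff.1 h
    omega
  -- the single classes
  have hse : ∀ u, e = P u → s (P u) = false := by
    intro u h
    have h1 := (hk _ (hφ u)).1.1.2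
    rcases h1 with h1 | h1
    · exact h1
    · exact absurd (Fin.mk.inj_iff.1 h) h1
  have hsl : ∀ u w, u ≠ w → P u = P w → s (P u) = false := by
    have key : ∀ u w, φ u < φ w → P u = P w → s (P u) = false := by
      intro u w h1 h2
      have h3 := (hk _ (hφ u)).1.2 _ (hφ w)
      rcases h3 with h3 | h3
      · exact absurd h1 h3
      · rcases h3.1 with h4 | h4
        · exact h4
        · exact absurd (Fin.mk.inj_iff.1 h2) h4
    intro u w huw h
    rcases lt_trichotomy (φ u) (φ w) with h1 | h1 | h1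
    · exact key u w h1 h
    · have h2 := (hk _ (hφ u)).2
      rcases h2 with h2 | h2
      · exact absurd (heq u w huw h1).1 h2
      · exact h2.1
    · rw [h]; exact key w u h1 h.symm
  refine ⟨z e ⟨0, hT0⟩, fun u => z (P u) (idx u), ?_, ?_, ?_⟩
  · intro u w h
    by_contra hne
    by_cases hp : P u = P w
    · have h1 := C.inj' (P u) (hsl u w hne hp) (idx u) (idx w) (hidx u w hne)
      apply h1
      have h' : z (P u) (idx u) = z (P w) (idx w) := h
      rw [h', hp]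
    · exact C.inj _ _ hp _ _ h
  · intro u h
    by_cases hp : e = P u
    · have h1 := C.inj' (P u) (hse u hp) (idx u) ⟨0, hT0⟩ (hidx0 u).symm
      apply h1
      have h' : z (P u) (idx u) = z e ⟨0, hT0⟩ := h
      rw [h', hp]
    · exact C.inj _ _ (Ne.symm hp) _ _ h
  · intro u w huw
    have hval : R (z e ⟨0, hT0⟩) (z (P u) (idx u)) (z (P w) (idx w)) ↔
        pvN M dbl e (P u) (P w) = true :=
      C.pv e (P u) (P w) _ _ _ (fun h => ⟨hidx0 u, by rw [h]; exact hse u h⟩)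
        (fun h => ⟨hidx u w huw, hsl u w huw h⟩) (fun h => ⟨hidx0 w, by rw [h]; exact hse w h⟩)
    rw [hval]
    have key : ∀ u w, φ u < φ w → (Adj u w ↔ pvN M dbl e (P u) (P w) = true) := by
      intro u w h1
      have h3 := (hk _ (hφ u)).1.2 _ (hφ w)
      rcases h3 with h3 | h3
      · exact absurd h1 h3
      · rw [hlt u w h1, ← h3.2]
    rcases lt_trichotomy (φ u) (φ w) with h1 | h1 | h1
    · exact key u w h1
    · have h2 := (hk _ (hφ u)).2
      have h4 := heq u w huw h1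
      rcases h2 with h2 | h2
      · exact absurd h4.1 h2
      · have h5 : P w = P u := Fin.ext (by show c.2.getD (φ w) 0 = c.2.getD (φ u) 0; rw [h1])
        rw [h5]
        constructor
        · intro h; exact absurd h h4.2
        · intro h
          have h6 : pvN M dbl e (P u) (P u) = false := h2.2
          rw [h6] at h
          exact absurd h (by decide)
    · have h2 := key w u h1
      have h3 : pvN M dbl e (P w) (P u) = true ↔ pvN M dbl e (P u) (P w) = true := by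
        rw [← hval, ← C.pv e (P w) (P u) ⟨0, hT0⟩ (idx w) (idx u)
          (fun h => ⟨hidx0 w, by rw [h]; exact hse w h⟩)
          (fun h => ⟨hidx w u (Ne.symm huw), hsl w u (Ne.symm huw) h⟩)
          (fun h => ⟨hidx0 u, by rw [h]; exact hse u h⟩)]
        exact ⟨C.s1 _ _ _, C.s1 _ _ _⟩
      rw [← h3, ← h2]
      exact ⟨hA u w, hA w u⟩

end

end Pool.Agent.Run7.h551.TX
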