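import Pool.Agent.Run7.h551.TX.Cor
import Pool.Agent.TH773.ST.CoMain
import Pool.Agent.Results.MP_466853_co.InfiniteLinkFamilies

/-! The families of graphs, and the covering form. -/

set_option autoImplicit false
set_option linter.unusedVariables false
set_option linter.unusedSectionVars false
set_option maxRecDepth 100000

open Finset
open scoped Classical

namespace Pool.Agent.Run7.h551.TX
open Pool.Agent.Y439.Loc hiding sum_nonneg'
open Pool.Agent.TH773
open Pool.Agent.TH773.Turan34 (K43Free turan Induces copies fam XA XB XC XD XE XF XG XH XI)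
open Pool.Agent.TH773.ST
open Pool.Agent.Y439
open Pool.Agent.Y903.TX
open Pool.Agent.R105.TP
open Pool.Agent.R573.CL
open Pool.Agent.TH773.Cov (CoversQuadruples turanC Balanced f compl_turanC card_compl compl_inj
  compl_free covers_turanC f_eq balanced_iff turanC_card card_turanC)
open Pool.Agent.Results.MP_466853_co.InfiniteLinkFamilies (Fits TriangleStar JoinStar NearBipartite
  linkCopies core_turan Core)

/-- the lists -/
theorem lst_fam' (i : Fin 5) : Lst (fam i) where
  cov := fam_cov i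
  stab := Pool.Agent.TH773.CL.stab_copies i
  tur _ g := ST.turan_copies i g
  inn := by
    fin_cases i
    · exact ⟨XA, List.mem_cons_self, _, _, _, fA, by decide, by decide⟩
    · exact ⟨XA, List.mem_cons_self, _, _, _, fA, by decide, by decide⟩
    · exact ⟨XD, List.mem_cons_self, _, _, _, fD, by decide, by decide⟩
    · exact ⟨XA, List.mem_cons_of_mem _ List.mem_cons_self, _, _, _, fA, by decide, by decide⟩
    · exact ⟨XH, List.mem_cons_of_mem _ (List.mem_cons_of_mem _ List.mem_cons_self), _, _, _, fH,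
        by decide, by decide⟩
  rev := by
    fin_cases i
    · exact ⟨XB, List.mem_cons_of_mem _ List.mem_cons_self, _, _, _, fB, by decide⟩
    · exact ⟨XC, List.mem_cons_of_mem _ List.mem_cons_self, _, _, _, fC, by decide⟩
    · exact ⟨XB, List.mem_cons_of_mem _ List.mem_cons_self, _, _, _, fB, by decide⟩
    · exact ⟨XE, List.mem_cons_self, _, _, _, fE, by decide⟩
    · exact ⟨XF, List.mem_cons_self, _, _, _, fF, by decide⟩

theorem dt1 : Dt (fam 0) F1 where
  lst := lst_fam' 0
  ms := ⟨{569959447021696, 1695859551520896}, card_le_two.trans (by norm_num), by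
      intro X hX
      simp only [fam, List.mem_cons, List.not_mem_nil, or_false] at hX
      rcases hX with rfl | rfl
      · exact ⟨_, by simp, mkA⟩
      · exact ⟨_, by simp, mkB⟩, by
      intro M hM
      simp only [mem_insert, mem_singleton] at hM
      rcases hM with rfl | rfl
      · exact ⟨_, ckA1⟩
      · exact ⟨_, ckB1⟩⟩
  inn := ⟨![0, 1, 1, 2], ![true, false, false, false], _, _, _, cq1, by decide +kernel,
    by decide +kernel, by decide, by decide⟩
  rev := ⟨![0, 1, 2, 2], ![true, true, false, false], _, _, _, cr1, by decide +kernel,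
    by decide +kernel, by decide⟩

theorem dt2 : Dt (fam 1) F2 where
  lst := lst_fam' 1
  ms := ⟨{569959447021696, 569993807290368}, card_le_two.trans (by norm_num), by
      intro X hX
      simp only [fam, List.mem_cons, List.not_mem_nil, or_false] at hX
      rcases hX with rfl | rfl
      · exact ⟨_, by simp, mkA⟩
      · exact ⟨_, by simp, mkC⟩, by
      intro M hM
      simp only [mem_insert, mem_singleton] at hM
      rcases hM with rfl | rfl
      · exact ⟨_, ckA2⟩
      · exact ⟨_, ckC2⟩⟩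
  inn := ⟨![0, 1, 1, 2], ![true, false, false, false], _, _, _, cq2, by decide +kernel,
    by decide +kernel, by decide, by decide⟩
  rev := ⟨![0, 0, 1, 2], ![true, true, true, false], _, _, _, cr2, by decide +kernel,
    by decide +kernel, by decide⟩

theorem dt3 : Dt (fam 4) F3 where
  lst := lst_fam' 4
  ms := ⟨{565320882348032, 569959679797376, 585215403632768, 585215404157056},
    card_le_four, by
      intro X hX
      simp only [fam, List.mem_cons, List.not_mem_nil, or_false] at hX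
      rcases hX with rfl | rfl | rfl | rfl
      · exact ⟨_, by simp, mkF⟩
      · exact ⟨_, by simp, mkG⟩
      · exact ⟨_, by simp, mkH⟩
      · exact ⟨_, by simp, mkI⟩, by
      intro M hM
      simp only [mem_insert, mem_singleton] at hM
      rcases hM with rfl | rfl | rfl | rfl
      · exact ⟨_, ckF3⟩
      · exact ⟨_, ckG3⟩
      · exact ⟨_, ckH3⟩
      · exact ⟨_, ckI3⟩⟩
  inn := ⟨![0, 2, 2, 2], ![true, false, false, false], _, _, _, cq3, by decide +kernel,
    by decide +kernel, by decide, by decide⟩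
  rev := ⟨![0, 2, 2, 2], ![true, false, false, false], _, _, _, cr3, by decide +kernel,
    by decide +kernel, by decide⟩

/-- from the graphs to the codes of the families -/
theorem mem_of_fits {A : Finset (Finset (Fin 5))} {X Y : Finset (Fin 5)} {F : Fam}
    (h1 : ∀ a ∈ X ∪ Y, a.val < F.m)
    (h2 : ∀ a ∈ X ∪ Y, ∀ b ∈ X ∪ Y, a < b → (({a, b} : Finset (Fin 5)) ∈ A ↔
      bt F.A (2 ^ a.val + 2 ^ b.val) = true)) (h3 : ∀ a ∈ X, a.val < F.i)
    (h4 : ∀ a : Fin 5, ({a, a} : Finset (Fin 5)) ∉ A) {α : Type} {G : SimpleGraph α}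
    (hG : Fits A X Y G) : Mem F G.Adj := by
  obtain ⟨φ, g1, g2, g3⟩ := hG
  refine ⟨fun u => (φ u).val, fun u => h1 _ (g1 u), fun u v h => h.symm, fun u v h => ?_,
    fun u v huv h => ?_⟩
  · have hne : u ≠ v := fun e => by rw [e] at h; exact lt_irrefl _ h
    rw [g3 u v hne]
    exact h2 _ (g1 u) _ (g1 v) h
  · have he : φ u = φ v := Fin.ext h
    refine ⟨h3 _ (g2 u v huv he), ?_⟩
    rw [g3 u v huv, he]
    exact h4 _

/-- change of the classes -/
theorem fits_map {A A' : Finset (Finset (Fin 5))} {X Y X' Y' : Finset (Fin 5)} (σ : Fin 5 → Fin 5)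
    (h1 : ∀ a ∈ X ∪ Y, σ a ∈ X' ∪ Y')
    (h2 : ∀ a ∈ X ∪ Y, ∀ b ∈ X ∪ Y, (({a, b} : Finset (Fin 5)) ∈ A ↔
      ({σ a, σ b} : Finset (Fin 5)) ∈ A'))
    (h3 : ∀ a ∈ X ∪ Y, ∀ b ∈ X ∪ Y, σ a = σ b → (a = b → a ∈ X) → σ a ∈ X')
    {α : Type} {G : SimpleGraph α} (hG : Fits A X Y G) : Fits A' X' Y' G := by
  obtain ⟨φ, g1, g2, g3⟩ := hG
  refine ⟨fun u => σ (φ u), fun u => h1 _ (g1 u), fun u w huw h => ?_, fun u w huw => ?_⟩
  · exact h3 _ (g1 u) _ (g1 w) h fun e => g2 u w huw e
  · rw [g3 u w huw]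
    exact h2 _ (g1 u) _ (g1 w)

/-- no link copy -/
theorem lk_copies {α : Type} [Fintype α] {F : SimpleGraph α} {n : ℕ} {H : Finset (Finset (Fin n))}
    (h : ¬ Lk (Loc.Rel H) F.Adj) : linkCopies F H = 0 := by
  unfold linkCopies
  rw [card_eq_zero, filter_eq_empty_iff]
  rintro ⟨v, f⟩ - ⟨h1, h2, h3⟩
  refine h ⟨v, f, h1, h2, fun u w huw => ?_⟩
  rw [h3 u w huw]
  exact ⟨fun h => ⟨(h2 u).symm, h1.ne huw, (h2 w).symm, h⟩, fun h => h.2.2.2⟩

/-- stability -/
theorem stab_of {α : Type} [Fintype α] {F : SimpleGraph α}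
    (hF : TriangleStar F ∨ JoinStar F ∨ NearBipartite F) (ε : ℝ) (hε : 0 < ε) :
    ∃ n0 : ℕ, ∀ n, n0 ≤ n → ∀ H : Finset (Finset (Fin n)),
      (∀ e ∈ H, e.card = 3) → K43Free H → ¬ Lk (Loc.Rel H) F.Adj → ∃ g : Fin n → Fin 3,
        ((symmDiff H (turan g)).card : ℝ) ≤
          KK * (5 / 54 * (n : ℝ) ^ 3 - H.card) + ε * (n : ℝ) ^ 3 := by
  have h := Pool.Agent.Results.MP_466853_co.InfiniteLinkFamilies.result.1 α F (by tauto) ε hε
  obtain ⟨δ, hδ, n0, h1⟩ := h
  refine ⟨n0, fun n hn H h3 hK hL => ?_⟩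
  obtain ⟨-, g, hg⟩ := h1 n hn H h3 hK (by
    rw [lk_copies hL]
    push_cast
    positivity)
  exact ⟨g, hg⟩

theorem F6_tnum' (n : ℕ) : F6 ((n + 2) / 3) ((n + 1) / 3) (n / 3) = 6 * tnum n := by
  have key : ∀ a b c : ℕ, (F6 a b c : ℝ) =
      6 * ((a : ℝ) * b * c) + 3 * ((a : ℝ) * a * b + b * b * c + c * c * a) -
      3 * ((a : ℝ) * b + b * c + c * a) := by
    intro a b c
    have := F6_cast a b c
    exact_mod_cast this
  have h : (F6 ((n + 2) / 3) ((n + 1) / 3) (n / 3) : ℝ) = 6 * (tnum n : ℝ) := by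
    obtain ⟨q, rfl | rfl | rfl⟩ := Pool.Agent.R105.TP.three_cases n
    · have e0 : 3 * q / 3 = q := by omega
      have e1 : (3 * q + 1) / 3 = q := by omega
      have e2 : (3 * q + 2) / 3 = q := by omega
      rw [e0, e1, e2, key, Pool.Agent.R105.TP.tn0]
      ring
    · have e0 : (3 * q + 1) / 3 = q := by omega
      have e1 : (3 * q + 1 + 1) / 3 = q := by omega
      have e2 : (3 * q + 1 + 2) / 3 = q + 1 := by omega
      rw [e0, e1, e2, key, Pool.Agent.R105.TP.tn1]
      push_cast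
      ring
    · have e0 : (3 * q + 2) / 3 = q := by omega
      have e1 : (3 * q + 2 + 1) / 3 = q + 1 := by omega
      have e2 : (3 * q + 2 + 2) / 3 = q + 1 := by omega
      rw [e0, e1, e2, key, Pool.Agent.R105.TP.tn2]
      push_cast
      ring
  exact_mod_cast h

/-- the graph `F` is an induced subgraph of a colink of `G` -/
def Clk {α : Type} (F : SimpleGraph α) {n : ℕ} (G : Finset (Finset (Fin n))) : Prop :=
  ∃ (v : Fin n) (h : α → Fin n), Function.Injective h ∧ (∀ u, h u ≠ v) ∧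
    ∀ u w, u ≠ w → (F.Adj u w ↔ ({v, h u, h w} : Finset (Fin n)) ∉ G)

theorem clk_compl {α : Type} {F : SimpleGraph α} {n : ℕ} {G : Finset (Finset (Fin n))} :
    Clk F G ↔ Lk (Loc.Rel ((univ : Finset (Fin n)).powersetCard 3 \ G)) F.Adj := by
  have key : ∀ (v : Fin n) (h : α → Fin n), Function.Injective h → (∀ u, h u ≠ v) →
      ∀ u w, u ≠ w → (Loc.Rel ((univ : Finset (Fin n)).powersetCard 3 \ G) v (h u) (h w) ↔
        ({v, h u, h w} : Finset (Fin n)) ∉ G) := by
    intro v h h1 h2 u w huw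
    constructor
    · intro h3
      exact (mem_sdiff.1 h3.2.2.2).2
    · intro h3
      refine ⟨(h2 u).symm, h1.ne huw, (h2 w).symm, mem_sdiff.2 ⟨mem_powersetCard.2
        ⟨subset_univ _, card_eq_three.2 ⟨_, _, _, (h2 u).symm, (h2 w).symm, h1.ne huw, rfl⟩⟩, h3⟩⟩
  constructor
  · rintro ⟨v, h, h1, h2, h3⟩
    exact ⟨v, h, h1, h2, fun u w huw => by rw [h3 u w huw, key v h h1 h2 u w huw]⟩
  · rintro ⟨v, h, h1, h2, h3⟩
    exact ⟨v, h, h1, h2, fun u w huw => by rw [h3 u w huw, key v h h1 h2 u w huw]⟩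

/-- **The covering form.** -/
theorem exact_cover {Fs : List (Finset (Finset (Fin 6)))} {F : Fam} (D : Dt Fs F) {α : Type}
    [Fintype α] {A : SimpleGraph α} (hA : Mem F A.Adj)
    (hF : TriangleStar A ∨ JoinStar A ∨ NearBipartite A) : ∃ n0 : ℕ, ∀ n, n0 ≤ n →
      ∀ G : Finset (Finset (Fin n)), (∀ e ∈ G, e.card = 3) → CoversQuadruples G → ¬ Clk A G →
        f n ≤ G.card ∧ (G.card = f n → ∃ g : Fin n → Fin 3, Balanced g ∧ G = turanC g) := by
  obtain ⟨N, hN⟩ := exact_link D hA (stab_of hF)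
  refine ⟨max 16 N, fun n hn G hG hc hP => ?_⟩
  have h16 : 16 ≤ n := (le_max_left _ _).trans hn
  have hi : N ≤ n := (le_max_right _ _).trans hn
  have hH : ∀ e ∈ (univ : Finset (Fin n)).powersetCard 3 \ G, e.card = 3 :=
    fun e he => (mem_powersetCard.mp (mem_sdiff.mp he).1).2
  have h1 := hN n hi _ hH (compl_free hG hc) (fun h => hP (clk_compl.2 h))
  have h2 := card_compl hG
  have h3 := f_eq n (by omega)
  rw [F6_tnum'] at h3
  refine ⟨by omega, fun heq => ?_⟩
  obtain ⟨g, hg⟩ := h1.2 (by omega)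
  refine ⟨fun v => -g v, ?_, ?_⟩
  · rw [balanced_iff]
    simp only [neg_neg]
    have hsz := Pt_add g
    rw [Fintype.card_fin] at hsz
    refine ((F6_le hsz h16).2).mp ?_
    have h4 := turan_card6 g
    rw [← hg] at h4
    rw [F6_tnum']
    omega
  · refine compl_inj hG (fun e he => turanC_card he) ?_
    rw [hg, compl_turanC]
    simp only [neg_neg]

/-- the construction has no copy -/
theorem core_clk {α : Type} [Fintype α] {F : SimpleGraph α} (hF : Core F) {n : ℕ}
    (g : Fin n → Fin 3) : ¬ Clk F (turanC g) := by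
  intro h
  rw [clk_compl, compl_turanC] at h
  obtain ⟨v, f, h1, h2, h3⟩ := h
  have h4 := core_turan hF fun v => -g v
  unfold linkCopies at h4
  rw [card_eq_zero, filter_eq_empty_iff] at h4
  refine h4 (mem_univ (v, f)) ⟨h1, h2, fun u w huw => ?_⟩
  rw [h3 u w huw]
  exact ⟨fun h => h.2.2.2, fun h => ⟨(h2 u).symm, h1.ne huw, (h2 w).symm, h⟩⟩

end Pool.Agent.Run7.h551.TX
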