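import Pool.Agent.Run7.h551.TX.Vtx

/-! Pairs of vertices with atypical codegrees lead to members of the families in links. -/

set_option autoImplicit false
set_option linter.unusedVariables false
set_option linter.unusedSectionVars false
set_option maxRecDepth 100000

open Finset
open scoped Classical

namespace Pool.Agent.Run7.h551.TX
open Pool.Agent.Y439.Loc hiding sum_nonneg'
open Pool.Agent.TH773
open Pool.Agent.TH773.Turan34 (K43Free turan Induces copies fam XA XB XC XD XE XF XG XH XI)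
open Pool.Agent.Y439
open Pool.Agent.Y903.TX
open Pool.Agent.R105.TP
open Pool.Agent.R573.CL

/-- the new classes differ from the old classes for few vertices -/
theorem vx2 {n : ℕ} {H : Finset (Finset (Fin n))} (hst : ClnStab H)
    (hH : ∀ e ∈ H, e.card = 3) (hK : Turan34.K43Free H) (hn : 1 ≤ eps0 * (n : ℝ))
    (g : Fin n → Fin 3)
    (h1 : ((symmDiff H (Turan34.turan g)).card : ℝ) ≤ (eps0 / 6) ^ 2 * (n : ℝ) ^ 3)
    (h2 : (5 / 54 - (eps0 / 6) ^ 2) * (n : ℝ) ^ 3 ≤ (H.card : ℝ))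
    (hdeg : ∀ v, (5 / 18 - eps0 / 2) * (n : ℝ) ^ 2 ≤ ((H.filter fun e => v ∈ e).card : ℝ)) :
    ∃ c', Vx c' (Loc.Rel H) (n : ℝ) sig0 ∧ chg g c' ≤ 20 * eps0 * n := by
  have hnpos : 0 < n := by
    rcases Nat.eq_zero_or_pos n with h | h
    · rw [h] at hn; norm_num at hn
    · exact h
  have he := eps_small
  have he0 := eps0_pos
  have A := near_of hH hK g hnpos (by positivity) le_rfl h1 h2
  have hl : ∀ v, ∃ k, wr (Function.update g v k) (Loc.Rel H) v ≤ 180 * tau0 * (n : ℝ) ^ 2 := by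
    intro v
    exact link_cln hst hH hK hn A h2 v (by rw [deg_card hH v]; linarith [hdeg v])
  have hσ0 := sig0_pos
  have hτσ : 180 * tau0 + 40 * eps0 ≤ sig0 ^ 2 := by
    unfold tau0 sig0
    norm_num at he ⊢
    linarith
  have hε : eps0 ≤ 1 / 100 := he.trans (by norm_num)
  have hσ1 : sig0 ≤ 1 / 10 := by unfold sig0; norm_num
  have hτ0 := tau0_pos
  choose c' hc' using hl
  have hp := A.pos
  have hσ2 : sig0 ^ 2 ≤ 1 / 100 := by nlinarith
  have hch : chg g c' ≤ 20 * eps0 * n :=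
    chg_le A hε hn (η := 180 * tau0) (by linarith) fun v => by
      refine le_trans (le_of_eq ?_) (hc' v)
      congr 1
      funext x
      unfold Function.update
      split_ifs <;> rfl
  refine ⟨c', ⟨⟨A.S.s1, A.S.s2, A.S.ne, A.S.k4⟩, A.hn, hp, fun v => ?_, fun k => ?_, ?_⟩, hch⟩
  · have h1 := wr_new (c := g) (c' := c') (H := Loc.Rel H) A.hn v
    have h2 : wr c' (Loc.Rel H) v ≤ 180 * tau0 * (n : ℝ) ^ 2 + 2 * (n * chg g c') := by
      refine h1.trans (add_le_add_left (le_trans (le_of_eq ?_) (hc' v)) _)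
      congr 1
      funext x
      unfold Function.update
      split_ifs <;> rfl
    have h3 : n * chg g c' ≤ n * (20 * eps0 * n) := mul_le_mul_of_nonneg_left hch hp.le
    have h4 : (180 * tau0 + 40 * eps0) * (n : ℝ) ^ 2 ≤ sig0 ^ 2 * (n : ℝ) ^ 2 :=
      mul_le_mul_of_nonneg_right hτσ (by positivity)
    nlinarith
  · have h1 := sz_new (c := g) (c' := c') k
    have h2 := A.lo k
    have h3 : 21 * eps0 ≤ sig0 := by
      have : sig0 ^ 2 ≤ 1 / 10 * sig0 := by nlinarith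
      linarith
    have h4 : 21 * eps0 * n ≤ sig0 * n := mul_le_mul_of_nonneg_right h3 hp.le
    nlinarith
  · have : eps0 ≤ sig0 ^ 2 := by linarith
    exact hn.trans (mul_le_mul_of_nonneg_right this hp.le)

theorem tl_t3 : ∀ a b d s : Fin 3, tl a b d = t3 (a - s).val (b - s).val (d - s).val := by decide

/-- the 3-graph is near Turán's construction -/
theorem base_of {n : ℕ} {H : Finset (Finset (Fin n))} {g : Fin n → Fin 3}
    (S : Sys g (Loc.Rel H)) (s : Fin 3) {ε : ℝ} (hn : 0 < n) (h1 : 1 ≤ ε * (n : ℝ))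
    (hW : WD g (Loc.Rel H) ≤ ε * (n : ℝ) ^ 3) :
    Base (Loc.Rel H) (fun v => (g v - s).val) (Df g (Loc.Rel H)) ε where
  pos := by rw [Fintype.card_fin]; exact hn
  big := by rw [Fintype.card_fin]; exact h1
  s1 x y w h := S.s2 _ _ _ h
  s2 x y w h := S.s1 _ _ _ h
  ne x y w h := S.ne _ _ _ h
  k4 x y w u h1 h2 h3 h4 := S.k4 x y w u h1 h2 h3 h4
  c3 v := (g v - s).isLt
  tu x y w h1 h2 h3 h := by
    unfold Df at h
    push Not at h
    rw [h, tu_tl h1 h2 h3, tl_t3 _ _ _ s]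
  few := by
    rw [Fintype.card_fin]
    refine le_trans ?_ hW
    have e1 : WD g (Loc.Rel H) = ((univ.filter fun p : Fin n × Fin n × Fin n =>
        Df g (Loc.Rel H) p.1 p.2.1 p.2.2).card : ℝ) := by
      rw [← ind_sum_card]
      unfold WD
      simp only [Fintype.sum_prod_type]
    rw [e1]
    have h5 : ((univ : Finset (Fin 3 → Fin n)).filter fun x =>
        Df g (Loc.Rel H) (x 0) (x 1) (x 2)).card ≤ (univ.filter fun p : Fin n × Fin n × Fin n =>
        Df g (Loc.Rel H) p.1 p.2.1 p.2.2).card := by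
      refine card_le_card_of_injOn (fun x => (x 0, x 1, x 2)) ?_ ?_
      · intro x hx
        exact mem_coe.2 (mem_filter.2 ⟨mem_univ _, (mem_filter.1 (mem_coe.1 hx)).2⟩)
      · intro x _ y _ h
        have e2 := (Prod.mk.inj h).1
        have e3 := (Prod.mk.inj (Prod.mk.inj h).2).1
        have e4 := (Prod.mk.inj (Prod.mk.inj h).2).2
        funext i
        fin_cases i
        · exact e2
        · exact e3
        · exact e4
    exact_mod_cast h5

section
variable {V : Type} [Fintype V] {c : V → Fin 3} {R : V → V → V → Prop} {n σ : ℝ}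

/-- six vertices with the expected edges and classes -/
def Ge {V : Type} (R : V → V → V → Prop) (c : V → Fin 3) (d : Fin 3) (k : Fin 4 → Fin 3)
    (b : Fin 4 → Bool) (w : Fin 6 → V) : Prop :=
  Gd R d k b w ∧ ∀ i, c (w i) = cls d k i + c (w 0)

/-- the labelled copies through a pair -/
noncomputable def L2 (R : V → V → V → Prop) (c : V → Fin 3) (d : Fin 3) (k : Fin 4 → Fin 3)
    (b : Fin 4 → Bool) (x y : V) : ℝ :=
  ∑ p, ∑ q, ∑ r, ∑ t, ind (Ge R c d k b ![x, y, p, q, r, t])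

theorem cfg_sum2 (A : Vx c R n σ) {x y : V} {d : Fin 3} {k : Fin 4 → Fin 3}
    {b : Fin 4 → Bool} (hxy : x ≠ y) (hd : c y = c x + d)
    (hk : ∀ i, b i = true ∨ (k i ≠ 0 ∧ k i ≠ d)) :
    NN c R x y (k 0) (b 0) * NN c R x y (k 1) (b 1) * NN c R x y (k 2) (b 2) *
      NN c R x y (k 3) (b 3) ≤ L2 R c d k b x y + 22 * σ ^ 2 * n ^ 4 := by
  have hp := A.pos
  have S := A.S
  have e0 : NN c R x y (k 0) (b 0) * NN c R x y (k 1) (b 1) * NN c R x y (k 2) (b 2) *
      NN c R x y (k 3) (b 3) = ∑ p, ∑ q, ∑ r, ∑ t,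
        ind (c p = c x + k 0 ∧ (R x y p ↔ b 0 = true)) *
        ind (c q = c x + k 1 ∧ (R x y q ↔ b 1 = true)) *
        ind (c r = c x + k 2 ∧ (R x y r ↔ b 2 = true)) *
        ind (c t = c x + k 3 ∧ (R x y t ↔ b 3 = true)) := by
    simp only [← mul_sum, ← sum_mul]
    rfl
  rw [e0]
  have h1 : ∀ p q r t, ind (c p = c x + k 0 ∧ (R x y p ↔ b 0 = true)) *
        ind (c q = c x + k 1 ∧ (R x y q ↔ b 1 = true)) *
        ind (c r = c x + k 2 ∧ (R x y r ↔ b 2 = true)) *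
        ind (c t = c x + k 3 ∧ (R x y t ↔ b 3 = true)) ≤
      ([Ge R c d k b ![x, y, p, q, r, t], p = q, p = r, p = t, q = r, q = t, r = t,
        Df c R x p q, Df c R x p r, Df c R x p t, Df c R x q r, Df c R x q t, Df c R x r t,
        Df c R y p q, Df c R y p r, Df c R y p t, Df c R y q r, Df c R y q t, Df c R y r t,
        Df c R p q r, Df c R p q t, Df c R p r t, Df c R q r t].map ind).sum := by
    intro p q r t
    rw [ind_mul, ind_mul, ind_mul]
    refine ind_orL _ ?_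
    rintro ⟨⟨⟨h1, h2⟩, h3⟩, h4⟩
    by_contra hcon
    push Not at hcon
    have g0 : ¬ Ge R c d k b ![x, y, p, q, r, t] := hcon _ (by simp)
    refine g0 ⟨cfg_pt S hxy hd hk h1 h2 h3 h4 ?_ ?_ ?_ ?_ ?_ ?_ ?_ ?_ ?_ ?_ ?_ ?_ ?_ ?_ ?_ ?_ ?_
      ?_ ?_ ?_ ?_ ?_, ?_⟩
    case refine_23 =>
      intro i
      fin_cases i
      · show c x = 0 + c x
        rw [zero_add]
      · show c y = d + c x
        rw [hd, add_comm]
      · show c p = k 0 + c x
        rw [h1.1, add_comm]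
      · show c q = k 1 + c x
        rw [h2.1, add_comm]
      · show c r = k 2 + c x
        rw [h3.1, add_comm]
      · show c t = k 3 + c x
        rw [h4.1, add_comm]
    all_goals exact hcon _ (by simp)
  refine (sum_le_sum fun p _ => sum_le_sum fun q _ => sum_le_sum fun r _ =>
    sum_le_sum fun t _ => h1 p q r t).trans ?_
  simp only [List.map_cons, List.map_nil, List.sum_cons, List.sum_nil, add_zero,
    sum_add_distrib]
  rw [s12 A.hn (F := fun a b => ind (a = b)), s13 A.hn (F := fun a b => ind (a = b)),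
    s14 A.hn (F := fun a b => ind (a = b)), s23 A.hn (F := fun a b => ind (a = b)),
    s24 A.hn (F := fun a b => ind (a = b)), s34 A.hn (F := fun a b => ind (a = b)),
    s12 A.hn (F := fun a b => ind (Df c R x a b)), s13 A.hn (F := fun a b => ind (Df c R x a b)),
    s14 A.hn (F := fun a b => ind (Df c R x a b)), s23 A.hn (F := fun a b => ind (Df c R x a b)),
    s24 A.hn (F := fun a b => ind (Df c R x a b)), s34 A.hn (F := fun a b => ind (Df c R x a b)),
    s12 A.hn (F := fun a b => ind (Df c R y a b)), s13 A.hn (F := fun a b => ind (Df c R y a b)),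
    s14 A.hn (F := fun a b => ind (Df c R y a b)), s23 A.hn (F := fun a b => ind (Df c R y a b)),
    s24 A.hn (F := fun a b => ind (Df c R y a b)), s34 A.hn (F := fun a b => ind (Df c R y a b)),
    t123 A.hn (G := fun x y z => ind (Df c R x y z)), t124 A.hn (G := fun x y z => ind (Df c R x y z)),
    t134 A.hn (G := fun x y z => ind (Df c R x y z)), t234 A.hn (G := fun x y z => ind (Df c R x y z))]
  have f1 : ∑ a : V, ∑ b : V, ind (a = b) = n := by simp only [sum_ind_eq', A.hn]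
  have f2 : ∑ a, ∑ b, ind (Df c R x a b) = wr c R x := rfl
  have f3 : ∑ a, ∑ b, ind (Df c R y a b) = wr c R y := rfl
  have f4 : ∑ a, ∑ b, ∑ d, ind (Df c R a b d) = WD c R := rfl
  have f5 : ∑ p, ∑ q, ∑ r, ∑ t, ind (Ge R c d k b ![x, y, p, q, r, t]) = L2 R c d k b x y := rfl
  rw [f1, f2, f3, f4, f5]
  have m1 : n ^ 2 * wr c R x ≤ n ^ 2 * (σ ^ 2 * n ^ 2) :=
    mul_le_mul_of_nonneg_left (A.hw x) (by positivity)
  have m1' : n ^ 2 * wr c R y ≤ n ^ 2 * (σ ^ 2 * n ^ 2) :=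
    mul_le_mul_of_nonneg_left (A.hw y) (by positivity)
  have m2 : n ^ 2 * n ≤ n ^ 2 * (σ ^ 2 * n ^ 2) :=
    mul_le_mul_of_nonneg_left (small_n A) (by positivity)
  have m3 : n * WD c R ≤ n * (σ ^ 2 * n ^ 3) := mul_le_mul_of_nonneg_left (WD3 A) hp.le
  have r1 : n ^ 2 * (σ ^ 2 * n ^ 2) = σ ^ 2 * n ^ 4 := by ring
  have r2 : n * (σ ^ 2 * n ^ 3) = σ ^ 2 * n ^ 4 := by ring
  have r4 : 22 * σ ^ 2 * n ^ 4 = 22 * (σ ^ 2 * n ^ 4) := by ring
  rw [r1] at m1 m1' m2
  rw [r2] at m3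
  rw [r4]
  linarith

end

/-- the first two vertices -/
def vv {V : Type} (x y : V) : Fin 6 → V := ![x, y, x, x, x, x]

/-- the tuples of six vertices -/
theorem six_card {n : ℕ} (R : Fin n → Fin n → Fin n → Prop) (c : Fin n → Fin 3) (d : Fin 3)
    (k : Fin 4 → Fin 3) (b : Fin 4 → Bool) (x y : Fin n) :
    (n : ℝ) ^ 2 * L2 R c d k b x y ≤
      (((univ : Finset (Fin 6 → Fin n)).filter fun w =>
        Ge R c d k b (mix sP (vv x y) w)).card : ℝ) := by
  have h1 : L2 R c d k b x y = ((univ.filter fun p : Fin n × Fin n × Fin n × Fin n =>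
      Ge R c d k b ![x, y, p.1, p.2.1, p.2.2.1, p.2.2.2]).card : ℝ) := by
    rw [← ind_sum_card]
    unfold L2
    simp only [Fintype.sum_prod_type]
  rw [h1]
  have h2 : n ^ 2 * (univ.filter fun p : Fin n × Fin n × Fin n × Fin n =>
      Ge R c d k b ![x, y, p.1, p.2.1, p.2.2.1, p.2.2.2]).card ≤
      ((univ : Finset (Fin 6 → Fin n)).filter fun w =>
        Ge R c d k b (mix sP (vv x y) w)).card := by
    have h3 : ((univ : Finset (Fin n × Fin n)) ×ˢ (univ.filter fun p :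
        Fin n × Fin n × Fin n × Fin n =>
        Ge R c d k b ![x, y, p.1, p.2.1, p.2.2.1, p.2.2.2])).card ≤
        ((univ : Finset (Fin 6 → Fin n)).filter fun w =>
          Ge R c d k b (mix sP (vv x y) w)).card := by
      refine card_le_card_of_injOn (fun q => ![q.1.1, q.1.2, q.2.1, q.2.2.1, q.2.2.2.1,
        q.2.2.2.2]) ?_ ?_
      · intro q hq
        have hq2 := (mem_filter.1 (mem_product.1 (mem_coe.1 hq)).2).2
        refine mem_coe.2 (mem_filter.2 ⟨mem_univ _, ?_⟩)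
        have e : mix sP (vv x y) ![q.1.1, q.1.2, q.2.1, q.2.2.1, q.2.2.2.1, q.2.2.2.2] =
            ![x, y, q.2.1, q.2.2.1, q.2.2.2.1, q.2.2.2.2] := by
          funext i
          fin_cases i <;> rfl
        rw [e]
        exact hq2
      · rintro ⟨⟨a1, a2⟩, a3, a4, a5, a6⟩ _ ⟨⟨b1, b2⟩, b3, b4, b5, b6⟩ _ h
        have g0 : a1 = b1 := congrFun h 0
        have g1 : a2 = b2 := congrFun h 1
        have g2 : a3 = b3 := congrFun h 2
        have g3 : a4 = b4 := congrFun h 3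
        have g4 : a5 = b5 := congrFun h 4
        have g5 : a6 = b6 := congrFun h 5
        rw [g0, g1, g2, g3, g4, g5]
    rw [card_product, card_univ, Fintype.card_prod, Fintype.card_fin] at h3
    calc _ = n * n * (univ.filter fun p : Fin n × Fin n × Fin n × Fin n =>
        Ge R c d k b ![x, y, p.1, p.2.1, p.2.2.1, p.2.2.2]).card := by ring
      _ ≤ _ := h3
  exact_mod_cast h2

/-- few tuples meet few vertices -/
theorem few_card {n : ℕ} (Q : Fin n → Prop) (p : Fin 6) :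
    ((univ : Finset (Fin 6 → Fin n)).filter fun w => Q (w p)).card ≤
      ((univ : Finset (Fin n)).filter Q).card * n ^ 5 := by
  have h1 := pull' (V := Fin n) (fun _ : Fin 1 => p) (fun _ _ _ => Subsingleton.elim _ _)
    ((univ : Finset (Fin 6 → Fin n)).filter fun w => Q (w p))
    ((univ : Finset (Fin 1 → Fin n)).filter fun u => Q (u 0)) (by
      intro w hw
      exact mem_filter.2 ⟨mem_univ _, (mem_filter.1 hw).2⟩)
  have h2 : ((univ : Finset (Fin 1 → Fin n)).filter fun u => Q (u 0)).card ≤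
      ((univ : Finset (Fin n)).filter Q).card := by
    refine card_le_card_of_injOn (fun u => u 0) ?_ ?_
    · intro u hu
      exact mem_coe.2 (mem_filter.2 ⟨mem_univ _, (mem_filter.1 (mem_coe.1 hu)).2⟩)
    · intro u _ u' _ h
      funext i
      rw [Subsingleton.elim i 0]
      exact h
  rw [Fintype.card_fin, Fintype.card_fin, Fintype.card_fin] at h1
  exact h1.trans (Nat.mul_le_mul_right _ h2)

/-- **The step for pairs.** -/
theorem pstep {M K : ℕ} {F : Fam} {L : List (ℕ × List ℕ)} (h : chkP M K F L = true) {α : Type}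
    [Fintype α] {Adj : α → α → Prop} (hA : Mem F Adj) {d : Fin 3} {k : Fin 4 → Fin 3}
    {b : Fin 4 → Bool} (hG : ∀ i j l : Fin 6, i < j → j < l →
      (G6 d k b i j l = true ↔ bt M (2 ^ i.val + 2 ^ j.val + 2 ^ l.val) = true))
    (hK : ∀ p : Fin 6, (cls d k p).val = col K p) (hk : ∀ i, b i = true ∨ (k i ≠ 0 ∧ k i ≠ d)) :
    ∃ ε : ℝ, 0 < ε ∧ ∀ (n : ℕ) (H : Finset (Finset (Fin n))) (g c : Fin n → Fin 3),
      Vx c (Loc.Rel H) (n : ℝ) sig0 → chg g c ≤ 20 * eps0 * n → 1 ≤ ε * (n : ℝ) →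
      WD g (Loc.Rel H) ≤ ε * (n : ℝ) ^ 3 → ∀ x y, x ≠ y → c y = c x + d →
      (n : ℝ) / 3000 ≤ NN c (Loc.Rel H) x y (k 0) (b 0) →
      (n : ℝ) / 3000 ≤ NN c (Loc.Rel H) x y (k 1) (b 1) →
      (n : ℝ) / 5 ≤ NN c (Loc.Rel H) x y (k 2) (b 2) →
      (n : ℝ) / 5 ≤ NN c (Loc.Rel H) x y (k 3) (b 3) → Lk (Loc.Rel H) Adj := by
  obtain ⟨ε, hε, hst⟩ := stepP h hA (δ := 1 / 10 ^ 10) (by positivity)
  refine ⟨ε, hε, fun n H g c A hchg h1n hW x y hxy hd g0 g1 g2 g3 => ?_⟩
  have hp : (0 : ℝ) < n := A.pos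
  have hn0 : 0 < n := by exact_mod_cast hp
  have s := cfg_sum2 A hxy hd hk
  have p1 : (n : ℝ) / 3000 * (n / 3000) ≤
      NN c (Loc.Rel H) x y (k 0) (b 0) * NN c (Loc.Rel H) x y (k 1) (b 1) :=
    mul_le_mul g0 g1 (by positivity) (NN_nonneg _ _ _ _)
  have p2 := mul_le_mul p1 g2 (by positivity) (mul_nonneg (NN_nonneg _ _ _ _) (NN_nonneg _ _ _ _))
  have p3 := mul_le_mul p2 g3 (by positivity)
    (mul_nonneg (mul_nonneg (NN_nonneg _ _ _ _) (NN_nonneg _ _ _ _)) (NN_nonneg _ _ _ _))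
  have e1 : (n : ℝ) / 3000 * (n / 3000) * (n / 5) * (n / 5) = 1 / 225000000 * (n : ℝ) ^ 4 := by
    ring
  rw [e1] at p3
  have hs : 22 * sig0 ^ 2 ≤ 1 / 10 ^ 10 := by unfold sig0; norm_num
  have hs' : 22 * sig0 ^ 2 * (n : ℝ) ^ 4 ≤ 1 / 10 ^ 10 * (n : ℝ) ^ 4 :=
    mul_le_mul_of_nonneg_right hs (by positivity)
  have hn4 : (0 : ℝ) < (n : ℝ) ^ 4 := by positivity
  have hL : 1 / 10 ^ 9 * (n : ℝ) ^ 4 ≤ L2 (Loc.Rel H) c d k b x y := by
    norm_num at hs' ⊢
    linarith
  have h6 := six_card (Loc.Rel H) c d k b x y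
  -- the tuples with equal classes
  obtain ⟨S1, hS1⟩ : ∃ S1 : Finset (Fin 6 → Fin n), S1 = univ.filter fun w =>
    Ge (Loc.Rel H) c d k b (mix sP (vv x y) w) := ⟨_, rfl⟩
  obtain ⟨S2, hS2⟩ : ∃ S2 : Finset (Fin 6 → Fin n), S2 = S1.filter fun w =>
    ∀ p, g (w p) = c (w p) := ⟨_, rfl⟩
  rw [← hS1] at h6
  obtain ⟨Q, hQ⟩ : ∃ Q : Fin n → Prop, ∀ v, Q v ↔ c v ≠ g v := ⟨_, fun _ => Iff.rfl⟩
  have hsub : S1 ⊆ S2 ∪ (univ : Finset (Fin 6)).biUnion fun p =>
      (univ : Finset (Fin 6 → Fin n)).filter fun w => Q (w p) := by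
    intro w hw
    by_cases hall : ∀ p, g (w p) = c (w p)
    · exact mem_union_left _ (by rw [hS2]; exact mem_filter.2 ⟨hw, hall⟩)
    · push Not at hall
      obtain ⟨p, hp⟩ := hall
      exact mem_union_right _ (mem_biUnion.2 ⟨p, mem_univ _, mem_filter.2 ⟨mem_univ _, (hQ _).2 hp.symm⟩⟩)
  have hchg2 : chg g c = (((univ : Finset (Fin n)).filter Q).card : ℝ) := by
    rw [← ind_sum_card]
    exact sum_congr rfl fun v _ => ind_congr (hQ v).symm
  have hcard : (S1.card : ℝ) ≤ S2.card + 6 * (chg g c * (n : ℝ) ^ 5) := by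
    have a1 : S1.card ≤ S2.card + ∑ _p : Fin 6,
        ((univ : Finset (Fin n)).filter Q).card * n ^ 5 := by
      refine (card_le_card hsub).trans ((card_union_le _ _).trans
        (Nat.add_le_add_left (card_biUnion_le.trans ?_) _))
      exact sum_le_sum fun p _ => few_card Q p
    rw [sum_const, card_univ, Fintype.card_fin, smul_eq_mul] at a1
    rw [hchg2]
    exact_mod_cast a1
  have he : 6 * (20 * eps0) ≤ 1 / 10 ^ 10 := by
    have := eps_small
    norm_num at this ⊢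
    linarith
  have hS2c : 1 / 10 ^ 10 * (n : ℝ) ^ 6 ≤ S2.card := by
    have a1 : (n : ℝ) ^ 2 * (1 / 10 ^ 9 * (n : ℝ) ^ 4) ≤ (n : ℝ) ^ 2 * L2 (Loc.Rel H) c d k b x y :=
      mul_le_mul_of_nonneg_left hL (by positivity)
    have a2 : 6 * (chg g c * (n : ℝ) ^ 5) ≤ 1 / 10 ^ 10 * (n : ℝ) ^ 6 := by
      calc 6 * (chg g c * (n : ℝ) ^ 5) ≤ 6 * (20 * eps0 * n * (n : ℝ) ^ 5) :=
            mul_le_mul_of_nonneg_left (mul_le_mul_of_nonneg_right hchg (by positivity))
              (by norm_num)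
        _ = 6 * (20 * eps0) * (n : ℝ) ^ 6 := by ring
        _ ≤ 1 / 10 ^ 10 * (n : ℝ) ^ 6 := mul_le_mul_of_nonneg_right he (by positivity)
    have a3 : (n : ℝ) ^ 2 * (1 / 10 ^ 9 * (n : ℝ) ^ 4) = 10 * (1 / 10 ^ 10 * (n : ℝ) ^ 6) := by
      ring
    have a4 : (0 : ℝ) < 1 / 10 ^ 10 * (n : ℝ) ^ 6 := by positivity
    linarith
  have Sg : Sys g (Loc.Rel H) := ⟨A.S.s1, A.S.s2, A.S.ne, A.S.k4⟩
  refine hst (Fin n) (Loc.Rel H) _ _ (base_of Sg (c x) hn0 h1n hW) (vv x y) S2 (by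
    rw [Fintype.card_fin]; exact hS2c) ?_
  intro w hw
  rw [hS2] at hw
  obtain ⟨hw1, hw2⟩ := mem_filter.1 hw
  rw [hS1] at hw1
  obtain ⟨⟨b1, b2⟩, b3⟩ := (mem_filter.1 hw1).2
  refine ⟨b1, fun i j l hij hjl => ?_, fun p hp => ?_⟩
  · rw [b2 i j l hij hjl, hG i j l hij hjl]
  · have a1 := b3 p
    rw [mix_f hp] at a1
    have a2 : mix sP (vv x y) w 0 = x := rfl
    rw [a2] at a1
    show (g (w p) - c x).val = col K p
    rw [hw2 p, a1, add_sub_cancel_right]
    exact hK p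

end Pool.Agent.Run7.h551.TX
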