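import Pool.Agent.Run7.h551.TX.Chk

/-! Many tuples lead to members of the families in links. -/

set_option autoImplicit false
set_option linter.unusedVariables false
set_option linter.unusedSectionVars false

open Finset
open scoped Classical

namespace Pool.Agent.Run7.h551.TX

/-- the graph is in a link -/
def Lk {V : Type} (R : V → V → V → Prop) {α : Type} (Adj : α → α → Prop) : Prop :=
  ∃ (v : V) (f : α → V), Function.Injective f ∧ (∀ u, f u ≠ v) ∧
    ∀ u w, u ≠ w → (Adj u w ↔ R v (f u) (f w))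

/-- the graph is a member of the family -/
def Mem (F : Fam) {α : Type} (Adj : α → α → Prop) : Prop :=
  ∃ φ : α → ℕ, (∀ u, φ u < F.m) ∧ (∀ u v, Adj u v → Adj v u) ∧
    (∀ u v, φ u < φ v → (Adj u v ↔ bt F.A (2 ^ φ u + 2 ^ φ v) = true)) ∧
    ∀ u v, u ≠ v → φ u = φ v → φ u < F.i ∧ ¬ Adj u v

/-- a 3-graph near Turán's construction -/
structure Base {V : Type} [Fintype V] (R : V → V → V → Prop) (c : V → ℕ) (B : V → V → V → Prop)
    (ε : ℝ) : Prop where
  pos : 0 < Fintype.card V
  big : 1 ≤ ε * (Fintype.card V : ℝ)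
  s1 : ∀ x y w, R x y w → R x w y
  s2 : ∀ x y w, R x y w → R y x w
  ne : ∀ x y w, R x y w → x ≠ y
  k4 : ∀ x y w u, R x y w → R x y u → R x w u → R y w u → False
  c3 : ∀ v, c v < 3
  tu : ∀ x y w, x ≠ y → y ≠ w → x ≠ w → ¬ B x y w → (R x y w ↔ t3 (c x) (c y) (c w) = true)
  few : (((univ : Finset (Fin 3 → V)).filter fun x => B (x 0) (x 1) (x 2)).card : ℝ) ≤
        ε * (Fintype.card V : ℝ) ^ 3

/-- one single vertex -/
theorem stepV {M : ℕ} {F : Fam} {L : List (ℕ × List ℕ)} (h : chkV M F L = true) {α : Type}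
    [Fintype α] {Adj : α → α → Prop} (hA : Mem F Adj) {δ : ℝ} (hδ : 0 < δ) : ∃ ε : ℝ, 0 < ε ∧
    ∀ (V : Type) [Fintype V] (R : V → V → V → Prop) (c : V → ℕ) (B : V → V → V → Prop),
      Base R c B ε → ∀ (a : ℕ) (v : V) (S : Finset (Fin 6 → V)), a < 6 →
        δ * (Fintype.card V : ℝ) ^ 6 ≤ S.card →
        (∀ w ∈ S, Function.Injective (mix (sV a) (fun _ => v) w) ∧
          (∀ i j l : Fin 6, i < j → j < l → (R (mix (sV a) (fun _ => v) w i)
            (mix (sV a) (fun _ => v) w j) (mix (sV a) (fun _ => v) w l) ↔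
            bt M (2 ^ i.val + 2 ^ j.val + 2 ^ l.val) = true))) → Lk R Adj := by
  obtain ⟨φ, a1, a2, a3, a4⟩ := hA
  obtain ⟨ε, hε, hu⟩ := uni (Fintype.card α + 2) (by omega) (δ := δ / 729) (by positivity)
  refine ⟨ε, hε, fun V _ R c B D a v S ha hS hw => ?_⟩
  have hN : (0 : ℝ) < (Fintype.card V : ℝ) := by exact_mod_cast D.pos
  -- the colours
  have hcode : ∀ w : Fin 6 → V, ∃ t : ℕ, t < 729 ∧ ∀ p : Fin 6, c (w p) = col t p.val :=
    fun w => enc3 (fun p => c (w p)) fun p => D.c3 _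
  choose t ht1 ht2 using hcode
  obtain ⟨k, hk, hcard⟩ : ∃ k ∈ range 729, (S.card : ℝ) / 729 ≤
      ((S.filter fun w => t w = k).card : ℝ) := by
    by_contra hcon
    push Not at hcon
    have h1 : S.card = ∑ k ∈ range 729, (S.filter fun w => t w = k).card :=
      card_eq_sum_card_fiberwise fun w _ => mem_coe.2 (mem_range.2 (ht1 w))
    have h2 : (S.card : ℝ) = ∑ k ∈ range 729, ((S.filter fun w => t w = k).card : ℝ) := by
      exact_mod_cast h1
    have h3 : ∑ k ∈ range 729, ((S.filter fun w => t w = k).card : ℝ) <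
        ∑ _k ∈ range 729, (S.card : ℝ) / 729 :=
      sum_lt_sum_of_nonempty ⟨0, mem_range.2 (by norm_num)⟩ fun k hk => hcon k hk
    rw [sum_const, card_range, nsmul_eq_mul] at h3
    push_cast at h3
    linarith
  obtain ⟨z, u, hu1, hcons, C⟩ := hu V R c B D.pos D.big D.s1 D.s2 D.ne D.tu D.few (sV a)
    (fun _ => v) k M (S.filter fun w => t w = k) (by
      refine le_trans ?_ hcard
      have : δ * (Fintype.card V : ℝ) ^ 6 / 729 ≤ (S.card : ℝ) / 729 :=
        div_le_div_of_nonneg_right hS (by norm_num)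
      calc δ / 729 * (Fintype.card V : ℝ) ^ 6 = δ * (Fintype.card V : ℝ) ^ 6 / 729 := by ring
        _ ≤ _ := this) (by
      intro w hw'
      obtain ⟨g1, g2⟩ := mem_filter.1 hw'
      obtain ⟨g3, g4⟩ := hw w g1
      refine ⟨g3, g4, fun p _ => ?_⟩
      rw [ht2, g2])
  have hd : (fun p r => if sV a r then bt (u r) p else tw (col k p) (col k r)) = dV a k (u a) := by
    funext p r
    unfold dV
    by_cases hr : sV a r = true
    · have : r = a := by simpa [sV] using hr
      rw [this]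
    · simp [hr]
  rw [hd] at C
  have hn := C.nok D.k4 (by omega)
  unfold chkV at h
  rw [List.all_eq_true] at h
  have h1 := h a (List.mem_range.2 ha)
  rw [List.all_eq_true] at h1
  have h2 := h1 k (List.mem_range.2 (mem_range.1 hk))
  rw [hcons, Bool.not_true, Bool.false_or, List.all_eq_true] at h2
  have h3 := h2 (u a) (List.mem_range.2 (hu1 a).1)
  rw [(hu1 a).2, Bool.not_true, Bool.false_or, hn, Bool.not_true, Bool.false_or,
    List.any_eq_true] at h3
  obtain ⟨e, -, he⟩ := h3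
  exact C.emb he (by omega) φ a1 Adj a2 a3 a4

/-- two single vertices -/
theorem stepP {M k : ℕ} {F : Fam} {L : List (ℕ × List ℕ)} (h : chkP M k F L = true) {α : Type}
    [Fintype α] {Adj : α → α → Prop} (hA : Mem F Adj) {δ : ℝ} (hδ : 0 < δ) : ∃ ε : ℝ, 0 < ε ∧
    ∀ (V : Type) [Fintype V] (R : V → V → V → Prop) (c : V → ℕ) (B : V → V → V → Prop),
      Base R c B ε → ∀ (v : Fin 6 → V) (S : Finset (Fin 6 → V)),
        δ * (Fintype.card V : ℝ) ^ 6 ≤ S.card →
        (∀ w ∈ S, Function.Injective (mix sP v w) ∧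
          (∀ i j l : Fin 6, i < j → j < l → (R (mix sP v w i)
            (mix sP v w j) (mix sP v w l) ↔
            bt M (2 ^ i.val + 2 ^ j.val + 2 ^ l.val) = true)) ∧
          ∀ p : Fin 6, sP p = false → c (w p) = col k p) → Lk R Adj := by
  obtain ⟨φ, a1, a2, a3, a4⟩ := hA
  obtain ⟨ε, hε, hu⟩ := uni (Fintype.card α + 2) (by omega) hδ
  refine ⟨ε, hε, fun V _ R c B D v S hS hw => ?_⟩
  obtain ⟨z, u, hu1, hcons, C⟩ := hu V R c B D.pos D.big D.s1 D.s2 D.ne D.tu D.few sP
    v k M S hS hw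
  have hd : (fun p r => if sP r then bt (u r) p else tw (col k p) (col k r)) =
      dP k (u 0) (u 1) := by
    funext p r
    unfold dP
    by_cases hr : sP r = true
    · have h2 : r < 2 := by
        unfold sP at hr
        exact Nat.le_of_ble_eq_true hr
      interval_cases r
      · rfl
      · rfl
    · simp [hr]
  rw [hd] at C
  have hn := C.nok D.k4 (by omega)
  unfold chkP at h
  rw [List.all_eq_true] at h
  have h1 := h (u 0) (List.mem_range.2 (hu1 0).1)
  rw [(hu1 0).2, Bool.not_true, Bool.false_or, List.all_eq_true] at h1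
  have h3 := h1 (u 1) (List.mem_range.2 (hu1 1).1)
  rw [(hu1 1).2, Bool.not_true, Bool.false_or, hn, Bool.not_true, Bool.false_or,
    List.any_eq_true] at h3
  obtain ⟨e, -, he⟩ := h3
  exact C.emb he (by omega) φ a1 Adj a2 a3 a4

end Pool.Agent.Run7.h551.TX
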