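import Pool.Agent.Run7.h551.TX.Eng

/-! From many tuples to blown-up patterns. -/

set_option autoImplicit false
set_option linter.unusedVariables false
set_option linter.unusedSectionVars false

open Finset
open scoped Classical

namespace Pool.Agent.Run7.h551.TX

/-- six binary digits -/
theorem enc2 (f : Fin 6 → Bool) : ∃ t : ℕ, t < 64 ∧ ∀ p : Fin 6, bt t p.val = f p := by
  have h : ∀ b : Bool, b.toNat < 2 := Bool.toNat_lt
  have h0 := h (f 0)
  have h1 := h (f 1)
  have h2 := h (f 2)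
  have h3 := h (f 3)
  have h4 := h (f 4)
  have h5 := h (f 5)
  refine ⟨(f 0).toNat + 2 * (f 1).toNat + 4 * (f 2).toNat + 8 * (f 3).toNat + 16 * (f 4).toNat +
    32 * (f 5).toNat, by omega, fun p => ?_⟩
  have key : ∀ m : ℕ, ∀ b : Bool, m % 2 = b.toNat → (m % 2 == 1) = b := by
    intro m b hm
    rw [hm]
    cases b <;> rfl
  unfold bt
  refine key _ _ ?_
  fin_cases p
  · show _ / 2 ^ 0 % 2 = (f 0).toNat
    omega
  · show _ / 2 ^ 1 % 2 = (f 1).toNat
    omega
  · show _ / 2 ^ 2 % 2 = (f 2).toNat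
    omega
  · show _ / 2 ^ 3 % 2 = (f 3).toNat
    omega
  · show _ / 2 ^ 4 % 2 = (f 4).toNat
    omega
  · show _ / 2 ^ 5 % 2 = (f 5).toNat
    omega

/-- six ternary digits -/
theorem enc3 (f : Fin 6 → ℕ) (hf : ∀ p, f p < 3) :
    ∃ t : ℕ, t < 729 ∧ ∀ p : Fin 6, f p = col t p.val := by
  have h0 := hf 0
  have h1 := hf 1
  have h2 := hf 2
  have h3 := hf 3
  have h4 := hf 4
  have h5 := hf 5
  refine ⟨f 0 + 3 * f 1 + 9 * f 2 + 27 * f 3 + 81 * f 4 + 243 * f 5, by omega, fun p => ?_⟩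
  unfold col
  fin_cases p
  · show f 0 = _ / 3 ^ 0 % 3
    omega
  · show f 1 = _ / 3 ^ 1 % 3
    omega
  · show f 2 = _ / 3 ^ 2 % 3
    omega
  · show f 3 = _ / 3 ^ 3 % 3
    omega
  · show f 4 = _ / 3 ^ 4 % 3
    omega
  · show f 5 = _ / 3 ^ 5 % 3
    omega

/-- replace the values at the single classes -/
def mix {V : Type} (s : ℕ → Bool) (v w : Fin 6 → V) (p : Fin 6) : V := if s p then v p else w p

theorem mix_t {V : Type} {s : ℕ → Bool} {v w : Fin 6 → V} {p : Fin 6} (h : s p = true) :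
    mix s v w p = v p := by unfold mix; rw [if_pos h]

theorem mix_f {V : Type} {s : ℕ → Bool} {v w : Fin 6 → V} {p : Fin 6} (h : s p = false) :
    mix s v w p = w p := by unfold mix; rw [if_neg (by rw [h]; decide)]

/-- the digits at the single classes vanish -/
def ckt (s : ℕ → Bool) (t : ℕ) : Bool := (List.range 6).all fun p => !(s p && bt t p)

theorem tw_self (a : ℕ) (ha : a < 3) : tw a a = false := by
  unfold tw
  have h : (a + 1) % 3 ≠ a := by omega
  simpa using h

theorem eq2_card (V : Type) [Fintype V] :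
    ((univ : Finset (Fin 3 → V)).filter fun x => x 0 = x 1).card ≤ Fintype.card V ^ 2 := by
  have h1 : ((univ : Finset (Fin 3 → V)).filter fun x => x 0 = x 1).card ≤
      (univ : Finset (V × V)).card := by
    refine card_le_card_of_injOn (fun x => (x 1, x 2)) (fun _ _ => mem_coe.2 (mem_univ _)) ?_
    intro x hx y hy h
    have hx' := (mem_filter.1 (mem_coe.1 hx)).2
    have hy' := (mem_filter.1 (mem_coe.1 hy)).2
    have h2 := (Prod.mk.inj h).1
    have h3 := (Prod.mk.inj h).2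
    funext i
    fin_cases i
    · show x 0 = y 0
      rw [hx', hy', h2]
    · exact h2
    · exact h3
  refine h1.trans (le_of_eq ?_)
  rw [card_univ, Fintype.card_prod]
  ring

/-- **From many tuples to a blown-up pattern.** -/
theorem uni (T' : ℕ) (hT' : 0 < T') {δ : ℝ} (hδ : 0 < δ) : ∃ ε : ℝ, 0 < ε ∧
    ∀ (V : Type) [Fintype V] (R : V → V → V → Prop) (c : V → ℕ) (B : V → V → V → Prop),
      0 < Fintype.card V → 1 ≤ ε * (Fintype.card V : ℝ) →
      (∀ x y w, R x y w → R x w y) → (∀ x y w, R x y w → R y x w) → (∀ x y w, R x y w → x ≠ y) →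
      (∀ x y w, x ≠ y → y ≠ w → x ≠ w → ¬ B x y w → (R x y w ↔ t3 (c x) (c y) (c w) = true)) →
      (((univ : Finset (Fin 3 → V)).filter fun x => B (x 0) (x 1) (x 2)).card : ℝ) ≤
        ε * (Fintype.card V : ℝ) ^ 3 →
      ∀ (s : ℕ → Bool) (v : Fin 6 → V) (k M : ℕ) (S : Finset (Fin 6 → V)),
        δ * (Fintype.card V : ℝ) ^ 6 ≤ S.card →
        (∀ w ∈ S, Function.Injective (mix s v w) ∧
          (∀ i j l : Fin 6, i < j → j < l → (R (mix s v w i) (mix s v w j) (mix s v w l) ↔
            bt M (2 ^ i.val + 2 ^ j.val + 2 ^ l.val) = true)) ∧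
          ∀ p : Fin 6, s p = false → c (w p) = col k p) →
        ∃ (z : Fin 6 → Fin T' → V) (t : ℕ → ℕ), (∀ r, t r < 64 ∧ ckt s (t r) = true) ∧
          cons s M k = true ∧
          Cfg R T' s M (fun p r => if s r then bt (t r) p else tw (col k p) (col k r)) z := by
  obtain ⟨T, hTT, hT0, hgrow⟩ := grow T'
  obtain ⟨ε0, hε0, hblow⟩ := blow 6 T hT0 hδ
  refine ⟨ε0 / 2, by positivity, ?_⟩
  intro V _ R c B hV h1n s1 s2 ne hB hcB s v k M S hS hw
  have hN : (0 : ℝ) < (Fintype.card V : ℝ) := by exact_mod_cast hV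
  obtain ⟨B', hB'⟩ : ∃ B' : V → V → V → Prop, ∀ a b d, B' a b d ↔ B a b d ∨ a = b :=
    ⟨fun a b d => B a b d ∨ a = b, fun _ _ _ => Iff.rfl⟩
  obtain ⟨y, hy1, hy2⟩ := hblow V hV S hS B' (by
    have g1 : ((univ : Finset (Fin 3 → V)).filter fun x => B' (x 0) (x 1) (x 2)).card ≤
        ((univ : Finset (Fin 3 → V)).filter fun x => B (x 0) (x 1) (x 2)).card +
        Fintype.card V ^ 2 := by
      refine (card_le_card (t := ((univ : Finset (Fin 3 → V)).filter fun x =>
        B (x 0) (x 1) (x 2)) ∪ ((univ : Finset (Fin 3 → V)).filter fun x => x 0 = x 1))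
        fun x hx => ?_).trans ((card_union_le _ _).trans (Nat.add_le_add_left (eq2_card V) _))
      rcases (hB' _ _ _).1 (mem_filter.1 hx).2 with h | h
      · exact mem_union_left _ (mem_filter.2 ⟨mem_univ _, h⟩)
      · exact mem_union_right _ (mem_filter.2 ⟨mem_univ _, h⟩)
    have g2 : (((univ : Finset (Fin 3 → V)).filter fun x => B' (x 0) (x 1) (x 2)).card : ℝ) ≤
        (((univ : Finset (Fin 3 → V)).filter fun x => B (x 0) (x 1) (x 2)).card : ℝ) +
        (Fintype.card V : ℝ) ^ 2 := by exact_mod_cast g1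
    have g3 : (Fintype.card V : ℝ) ^ 2 ≤ ε0 / 2 * (Fintype.card V : ℝ) ^ 3 := by
      have := mul_le_mul_of_nonneg_right h1n (show (0 : ℝ) ≤ (Fintype.card V : ℝ) ^ 2 by positivity)
      calc (Fintype.card V : ℝ) ^ 2 = 1 * (Fintype.card V : ℝ) ^ 2 := by ring
        _ ≤ ε0 / 2 * (Fintype.card V : ℝ) * (Fintype.card V : ℝ) ^ 2 := this
        _ = _ := by ring
    refine g2.trans ?_
    linarith)
  obtain ⟨τ, h, hmono, hτ⟩ := hgrow V R v y
  -- the digits
  have henc : ∀ r : Fin 6, ∃ t : ℕ, t < 64 ∧ ∀ p : Fin 6, bt t p.val = (!s p && τ p r) :=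
    fun r => enc2 fun p => !s p && τ p r
  choose t ht1 ht2 using henc
  have tt0 : ∀ r : ℕ, ∃ u : ℕ, u < 64 ∧ (∀ p : Fin 6, s p = true → bt u p.val = false) ∧
      ∀ hr : r < 6, u = t ⟨r, hr⟩ := by
    intro r
    by_cases hr : r < 6
    · refine ⟨t ⟨r, hr⟩, ht1 _, fun p hp => ?_, fun _ => rfl⟩
      rw [ht2, hp]; rfl
    · refine ⟨0, by norm_num, fun p _ => ?_, fun h => absurd h hr⟩
      unfold bt
      rw [Nat.zero_div]
      rfl
  choose u hu1 hu2 hu3 using tt0
  have hu4 : ∀ (r p : Fin 6), s p = false → bt (u r) p = τ p r := by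
    intro r p hp
    rw [hu3 r r.isLt, ht2, hp]
    rfl
  -- selections
  have sel : ∀ f : Fin 6 → Fin T, (fun i => y i (f i)) ∈ S := hy1
  -- the classes
  let z : Fin 6 → Fin T' → V := fun p i => if s p then v p else y p (h p i)
  have hzf : ∀ (f : Fin 6 → Fin T') (p : Fin 6),
      mix s v (fun q => y q (h q (f q))) p = z p (f p) := by
    intro f p
    rfl
  have hzn : ∀ (p : Fin 6) (i : Fin T'), s p = false → z p i = y p (h p i) := by
    intro p i hp
    show (if s p then v p else y p (h p i)) = _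
    rw [if_neg (by rw [hp]; decide)]
  have hzs : ∀ (p : Fin 6) (i : Fin T'), s p = true → z p i = v p := by
    intro p i hp
    show (if s p then v p else y p (h p i)) = _
    rw [if_pos hp]
  have hcol : ∀ (p : Fin 6) (i : Fin T), s p = false → c (y p i) = col k p := fun p i hp =>
    (hw _ (sel fun _ => i)).2.2 p hp
  have hynt : ∀ (a b : Fin 6 × Fin T), a ≠ b → y a.1 a.2 ≠ y b.1 b.2 := by
    intro a b hab
    obtain ⟨d, hd1, hd2⟩ : ∃ d : Fin 6 × Fin T, b ≠ d ∧ a ≠ d := by
      obtain ⟨q, hq1, hq2⟩ : ∃ q : Fin 6, b.1 ≠ q ∧ a.1 ≠ q := by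
        generalize a.1 = x
        generalize b.1 = x'
        revert x x'
        decide
      exact ⟨(q, ⟨0, hT0⟩), fun e => hq1 (by rw [e]), fun e => hq2 (by rw [e])⟩
    have := hy2 a b d hab hd1 hd2
    rw [hB'] at this
    push Not at this
    exact this.2
  have hynB : ∀ (a b d : Fin 6 × Fin T), a ≠ b → b ≠ d → a ≠ d →
      (R (y a.1 a.2) (y b.1 b.2) (y d.1 d.2) ↔
        t3 (c (y a.1 a.2)) (c (y b.1 b.2)) (c (y d.1 d.2)) = true) := by
    intro a b d n1 n2 n3
    have := hy2 a b d n1 n2 n3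
    rw [hB'] at this
    push Not at this
    exact hB _ _ _ (hynt a b n1) (hynt b d n2) (hynt a d n3) this.1
  have pne : ∀ {p q : Fin 6} {i j : Fin T}, p ≠ q → ((p, i) : Fin 6 × Fin T) ≠ (q, j) :=
    fun h e => h (Prod.mk.inj e).1
  have pne' : ∀ {p : Fin 6} {i j : Fin T}, i ≠ j → ((p, i) : Fin 6 × Fin T) ≠ (p, j) :=
    fun h e => h (Prod.mk.inj e).2
  have hcol3 : ∀ p : ℕ, col k p < 3 := fun p => Nat.mod_lt _ (by norm_num)
  have v3 : ∀ p q r : Fin 6, p < q → q < r → ∀ i j l,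
      (R (z p i) (z q j) (z r l) ↔ bt M (2 ^ p.val + 2 ^ q.val + 2 ^ r.val) = true) := by
    intro p q r hpq hqr i j l
    have h1 := (hw _ (sel fun x => h x ((fun x => if x = p then i else if x = q then j else l) x))).2.1
      p q r hpq hqr
    have e1 := hzf (fun x => if x = p then i else if x = q then j else l)
    rw [e1, e1, e1] at h1
    simp only [if_true, if_neg hpq.ne', if_neg (hpq.trans hqr).ne', if_neg hqr.ne'] at h1
    exact h1
  refine ⟨z, u, fun r => ⟨hu1 r, ?_⟩, ?_, ⟨s1, s2, ne, ?_, ?_, v3, ?_, ?_⟩⟩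
  · unfold ckt
    rw [List.all_eq_true]
    intro p hp
    rw [List.mem_range] at hp
    rw [Bool.not_eq_true', Bool.and_eq_false_iff]
    by_cases hs : s p = true
    · right; exact hu2 r ⟨p, hp⟩ hs
    · left; simpa using hs
  · -- consistency
    unfold cons
    rw [List.all_eq_true]
    intro r hr
    rw [Bool.or_eq_true, or_iff_not_imp_left]
    intro hsr
    rw [List.all_eq_true]
    intro q hq
    rw [Bool.or_eq_true, or_iff_not_imp_left]
    intro hsq
    rw [List.all_eq_true]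
    intro p hp
    rw [Bool.or_eq_true, or_iff_not_imp_left]
    intro hsp
    rw [List.mem_range] at hr hq hp
    rw [Bool.not_eq_true] at hsr hsq hsp
    have i0 : Fin T' := ⟨0, hT'⟩
    obtain ⟨P, hP⟩ : ∃ P : Fin 6, P.val = p := ⟨⟨p, by omega⟩, rfl⟩
    obtain ⟨Q, hQ⟩ : ∃ Q : Fin 6, Q.val = q := ⟨⟨q, by omega⟩, rfl⟩
    obtain ⟨U, hU⟩ : ∃ U : Fin 6, U.val = r := ⟨⟨r, hr⟩, rfl⟩
    subst hP hQ hU
    have a1 := v3 P Q U hp hq i0 i0 i0
    rw [hzn _ _ hsp, hzn _ _ hsq, hzn _ _ hsr] at a1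
    have n1 : P ≠ Q := fun e => hp.ne (by rw [e])
    have n2 : Q ≠ U := fun e => hq.ne (by rw [e])
    have n3 : P ≠ U := fun e => (hp.trans hq).ne (by rw [e])
    have a2 := hynB (P, h P i0) (Q, h Q i0) (U, h U i0) (pne n1) (pne n2) (pne n3)
    simp only at a2
    rw [a1, hcol _ _ hsp, hcol _ _ hsq, hcol _ _ hsr] at a2
    rw [beq_iff_eq]
    exact Bool.eq_iff_iff.2 a2.symm
  · -- different classes
    intro p q hpq i j e
    have h1 := (hw _ (sel fun x => h x ((fun x => if x = p then i else j) x))).1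
    apply hpq
    apply h1
    have e1 := hzf (fun x => if x = p then i else j)
    rw [e1, e1]
    simp only [if_true, if_neg hpq.symm]
    exact e
  · intro p hp i j hij
    rw [hzn _ _ hp, hzn _ _ hp]
    exact hynt (p, h p i) (p, h p j) (pne' fun e => hij ((hmono p).injective e))
  · -- two vertices of a class
    intro p r hp hpr i j l hij
    by_cases hr : s r = true
    · rw [hzn _ _ hp, hzn _ _ hp, hzs _ _ hr]
      simp only [hr, if_true]
      rw [hu4 r p hp]
      rcases lt_or_gt_of_ne hij with g | g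
      · exact hτ p r i j g
      · rw [← hτ p r j i g]
        exact ⟨s2 _ _ _, s2 _ _ _⟩
    · rw [Bool.not_eq_true] at hr
      rw [hzn _ _ hp, hzn _ _ hp, hzn _ _ hr]
      simp only [hr, Bool.false_eq_true, if_false]
      have a2 := hynB (p, h p i) (p, h p j) (r, h r l)
        (pne' fun e => hij ((hmono p).injective e)) (pne hpr) (pne hpr)
      simp only at a2
      rw [a2, hcol _ _ hp, hcol _ _ hp, hcol _ _ hr]
      unfold t3
      simp
  · intro p hp i j l n1 n2 n3
    rw [hzn _ _ hp, hzn _ _ hp, hzn _ _ hp]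
    have a2 := hynB (p, h p i) (p, h p j) (p, h p l)
      (pne' fun e => n1 ((hmono p).injective e)) (pne' fun e => n2 ((hmono p).injective e))
      (pne' fun e => n3 ((hmono p).injective e))
    simp only at a2
    rw [a2, hcol _ _ hp, hcol _ _ hp, hcol _ _ hp]
    unfold t3
    simp only [beq_self_eq_true, if_true]
    rw [tw_self _ (hcol3 p)]
    decide

end Pool.Agent.Run7.h551.TX
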