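import Pool.Agent.Run7.h551.TX.Stp
import Pool.Agent.R573.CL.Ex

/-! Vertices lie in few copies of the members of the lists. -/

set_option autoImplicit false
set_option linter.unusedVariables false
set_option linter.unusedSectionVars false

open Finset
open scoped Classical

namespace Pool.Agent.Run7.h551.TX
open Pool.Agent.Y439.Loc hiding sum_nonneg'
open Pool.Agent.TH773
open Pool.Agent.TH773.Turan34 (K43Free turan Induces copies fam XA XB XC XD XE XF XG XH XI)
open Pool.Agent.Y439
open Pool.Agent.Y903.TX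
open Pool.Agent.R573.CL

theorem Base.mono {V : Type} [Fintype V] {R : V → V → V → Prop} {c : V → ℕ}
    {B : V → V → V → Prop} {ε ε' : ℝ} (D : Base R c B ε) (h : ε ≤ ε') : Base R c B ε' :=
  ⟨D.pos, D.big.trans (mul_le_mul_of_nonneg_right h (Nat.cast_nonneg _)), D.s1, D.s2, D.ne, D.k4,
    D.c3, D.tu, D.few.trans (mul_le_mul_of_nonneg_right h (by positivity))⟩

theorem min_eps (s : Finset ℕ) (P : ℕ → ℝ → Prop)
    (hm : ∀ i e e', 0 < e' → e' ≤ e → P i e → P i e')
    (h : ∀ i ∈ s, ∃ e, 0 < e ∧ P i e) : ∃ ε : ℝ, 0 < ε ∧ ∀ i ∈ s, P i ε := by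
  induction s using Finset.induction_on with
  | empty => exact ⟨1, one_pos, fun i hi => absurd hi (notMem_empty _)⟩
  | insert a s ha ih =>
    obtain ⟨e, he, h1⟩ := ih fun i hi => h i (mem_insert_of_mem hi)
    obtain ⟨e', he', h2⟩ := h a (mem_insert_self _ _)
    refine ⟨min e e', lt_min he he', fun i hi => ?_⟩
    rcases mem_insert.1 hi with rfl | hi
    · exact hm _ _ _ (lt_min he he') (min_le_right _ _) h2
    · exact hm _ _ _ (lt_min he he') (min_le_left _ _) (h1 i hi)

/-- the mask of a 3-graph on six vertices -/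
def IsMask (X : Finset (Finset (Fin 6))) (M : ℕ) : Prop :=
  ∀ i j l : Fin 6, i < j → j < l →
    (({i, j, l} : Finset (Fin 6)) ∈ X ↔ bt M (2 ^ i.val + 2 ^ j.val + 2 ^ l.val) = true)

theorem vstep {Fs : List (Finset (Finset (Fin 6)))} (Ms : Finset ℕ) (hMs : Ms.card ≤ 4)
    (hM : ∀ X ∈ Fs, ∃ M ∈ Ms, IsMask X M) {F : Fam} (h : ∀ M ∈ Ms, ∃ L, chkV M F L = true)
    {α : Type} [Fintype α] {Adj : α → α → Prop} (hA : Mem F Adj) {θ : ℝ} (hθ : 0 < θ) :
    ∃ ε : ℝ, 0 < ε ∧ ∀ (n : ℕ) (H : Finset (Finset (Fin n))) (c : Fin n → ℕ)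
      (B : Fin n → Fin n → Fin n → Prop), Base (Loc.Rel H) c B ε → ¬ Lk (Loc.Rel H) Adj →
      ∀ v, (vcop Fs H v : ℝ) ≤ θ * (n : ℝ) ^ 5 := by
  obtain ⟨ε, hε, hst⟩ := min_eps Ms (fun M ε => ∀ (V : Type) [Fintype V] (R : V → V → V → Prop)
      (c : V → ℕ) (B : V → V → V → Prop),
      Base R c B ε → ∀ (a : ℕ) (v : V) (S : Finset (Fin 6 → V)), a < 6 →
        θ / 24 * (Fintype.card V : ℝ) ^ 6 ≤ S.card →
        (∀ w ∈ S, Function.Injective (mix (sV a) (fun _ => v) w) ∧
          (∀ i j l : Fin 6, i < j → j < l → (R (mix (sV a) (fun _ => v) w i)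
            (mix (sV a) (fun _ => v) w j) (mix (sV a) (fun _ => v) w l) ↔
            bt M (2 ^ i.val + 2 ^ j.val + 2 ^ l.val) = true))) → Lk R Adj)
    (fun M e e' _ hle hP V _ R c B D => hP V R c B (D.mono hle))
    (fun M hM => by
      obtain ⟨L, hL⟩ := h M hM
      exact stepV hL hA (by positivity))
  refine ⟨ε, hε, fun n H c B D hLk v => ?_⟩
  have hn0 : 0 < n := by
    have := D.pos
    rwa [Fintype.card_fin] at this
  have hn : (0 : ℝ) < n := by exact_mod_cast hn0
  -- the labelled copies
  let P : ℕ → (Fin 6 → Fin n) → Prop := fun M f => Function.Injective f ∧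
    ∀ i j l : Fin 6, i < j → j < l → (Loc.Rel H (f i) (f j) (f l) ↔
      bt M (2 ^ i.val + 2 ^ j.val + 2 ^ l.val) = true)
  let T : ℕ → Fin 6 → Finset (Finset (Fin n)) := fun M a =>
    univ.filter fun S => ∃ f : Fin 6 → Fin n, f a = v ∧ P M f ∧ univ.image f = S
  have hT : ∀ M ∈ Ms, ∀ a : Fin 6, (n : ℝ) * ((T M a).card : ℝ) ≤ θ / 24 * (n : ℝ) ^ 6 := by
    intro M hMm a
    by_contra hcon
    push Not at hcon
    apply hLk
    refine hst M hMm (Fin n) (Loc.Rel H) c B D a.val v
      (univ.filter fun w => P M (mix (sV a.val) (fun _ => v) w)) a.isLt ?_ ?_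
    · rw [Fintype.card_fin]
      have h1 : n * (T M a).card ≤ (univ.filter fun w : Fin 6 → Fin n =>
          P M (mix (sV a.val) (fun _ => v) w)).card := by
        have h2 : ∀ S : Finset (Fin n), ∃ f : Fin 6 → Fin n, S ∈ T M a →
            (f a = v ∧ P M f ∧ univ.image f = S) := by
          intro S
          by_cases hS : S ∈ T M a
          · obtain ⟨f, hf⟩ := (mem_filter.1 hS).2
            exact ⟨f, fun _ => hf⟩
          · exact ⟨fun _ => v, fun h => absurd h hS⟩
        choose g hg using h2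
        have hmix : ∀ (S : Finset (Fin n)) (y : Fin n), S ∈ T M a →
            mix (sV a.val) (fun _ => v) (Function.update (g S) a y) = g S := by
          intro S y hS
          funext p
          by_cases hp : p = a
          · subst hp
            rw [mix_t (by simp [sV]), (hg S hS).1]
          · have hp' : p.val ≠ a.val := fun e => hp (Fin.ext e)
            rw [mix_f (by simp [sV, hp']), Function.update_of_ne hp]
        have h3 : ((univ : Finset (Fin n)) ×ˢ T M a).card ≤ (univ.filter fun w : Fin 6 → Fin n =>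
          P M (mix (sV a.val) (fun _ => v) w)).card := by
          refine card_le_card_of_injOn (fun q => Function.update (g q.2) a q.1) ?_ ?_
          · intro q hq
            have hq2 := (mem_product.1 (mem_coe.1 hq)).2
            refine mem_coe.2 (mem_filter.2 ⟨mem_univ _, ?_⟩)
            rw [hmix _ _ hq2]
            exact (hg _ hq2).2.1
          · rintro ⟨y, S⟩ hq ⟨y', S'⟩ hq' he
            have hq2 := (mem_product.1 (mem_coe.1 hq)).2
            have hq2' := (mem_product.1 (mem_coe.1 hq')).2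
            have he' : Function.update (g S) a y = Function.update (g S') a y' := he
            have e1 : y = y' := by
              have := congrFun he' a
              rwa [Function.update_self, Function.update_self] at this
            have e2 : g S = g S' := by
              rw [← hmix S y hq2, ← hmix S' y' hq2', he']
            have e3 : S = S' := by
              rw [← (hg S hq2).2.2, ← (hg S' hq2').2.2, e2]
            rw [e1, e3]
        rw [card_product, card_univ, Fintype.card_fin] at h3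
        exact h3
      have h2 : (n : ℝ) * ((T M a).card : ℝ) ≤ ((univ.filter fun w : Fin 6 → Fin n =>
          P M (mix (sV a.val) (fun _ => v) w)).card : ℝ) := by exact_mod_cast h1
      linarith
    · intro w hw
      exact (mem_filter.1 hw).2
  -- the sets through `v`
  have hv : vcop Fs H v ≤ ∑ M ∈ Ms, ∑ a : Fin 6, (T M a).card := by
    have h1 : ((univ : Finset (Finset (Fin n))).filter fun S =>
        v ∈ S ∧ ∃ F ∈ Fs, Induces F H S) ⊆ Ms.biUnion fun M => (univ : Finset (Fin 6)).biUnion
          fun a => T M a := by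
      intro S hS
      obtain ⟨-, hvS, X, hX, f, hf, himg, hpat⟩ := mem_filter.1 hS
      obtain ⟨M, hMm, hmask⟩ := hM X hX
      obtain ⟨a, -, ha⟩ := mem_image.1 (by rw [himg]; exact hvS : v ∈ univ.image f)
      refine mem_biUnion.2 ⟨M, hMm, mem_biUnion.2 ⟨a, mem_univ _, mem_filter.2 ⟨mem_univ _, f, ha,
        ⟨hf, fun i j l hij hjl => ?_⟩, himg⟩⟩⟩
      have n1 : i ≠ j := hij.ne
      have n2 : j ≠ l := hjl.ne
      have n3 : i ≠ l := (hij.trans hjl).ne
      have h2 := hpat {i, j, l} (card_eq_three.2 ⟨i, j, l, n1, n3, n2, rfl⟩)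
      rw [image_insert, image_insert, image_singleton] at h2
      rw [← hmask i j l hij hjl, ← h2]
      exact ⟨fun h => h.2.2.2, fun h => ⟨hf.ne n1, hf.ne n2, hf.ne n3, h⟩⟩
    unfold vcop
    refine (card_le_card h1).trans (card_biUnion_le.trans (sum_le_sum fun M _ => card_biUnion_le))
  have hv' : (vcop Fs H v : ℝ) ≤ ∑ M ∈ Ms, ∑ a : Fin 6, ((T M a).card : ℝ) := by exact_mod_cast hv
  have h5 : (n : ℝ) * (vcop Fs H v : ℝ) ≤ θ * (n : ℝ) ^ 6 := by
    calc (n : ℝ) * (vcop Fs H v : ℝ) ≤ n * ∑ M ∈ Ms, ∑ a : Fin 6, ((T M a).card : ℝ) :=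
          mul_le_mul_of_nonneg_left hv' hn.le
      _ = ∑ M ∈ Ms, ∑ a : Fin 6, (n : ℝ) * ((T M a).card : ℝ) := by
          rw [mul_sum]
          exact sum_congr rfl fun M _ => mul_sum _ _ _
      _ ≤ ∑ M ∈ Ms, ∑ _a : Fin 6, θ / 24 * (n : ℝ) ^ 6 :=
          sum_le_sum fun M hMm => sum_le_sum fun a _ => hT M hMm a
      _ = (Ms.card : ℝ) * (6 * (θ / 24 * (n : ℝ) ^ 6)) := by
          rw [sum_const, sum_const, card_univ, Fintype.card_fin, nsmul_eq_mul, nsmul_eq_mul]
          push_cast
          ring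
      _ ≤ 4 * (6 * (θ / 24 * (n : ℝ) ^ 6)) := by
          refine mul_le_mul_of_nonneg_right ?_ (by positivity)
          exact_mod_cast hMs
      _ = θ * (n : ℝ) ^ 6 := by ring
  have h6 : (n : ℝ) * (vcop Fs H v : ℝ) ≤ n * (θ * (n : ℝ) ^ 5) := by
    calc _ ≤ θ * (n : ℝ) ^ 6 := h5
      _ = _ := by ring
  exact le_of_mul_le_mul_left h6 hn

theorem mkA : IsMask XA 569959447021696 := by unfold IsMask; decide +kernel
theorem mkB : IsMask XB 1695859551520896 := by unfold IsMask; decide +kernel
theorem mkC : IsMask XC 569993807290368 := by unfold IsMask; decide +kernel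
theorem mkF : IsMask XF 565320882348032 := by unfold IsMask; decide +kernel
theorem mkG : IsMask XG 569959679797376 := by unfold IsMask; decide +kernel
theorem mkH : IsMask XH 585215403632768 := by unfold IsMask; decide +kernel
theorem mkI : IsMask XI 585215404157056 := by unfold IsMask; decide +kernel

end Pool.Agent.Run7.h551.TX
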